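import Mathlib

set_option autoImplicit false

open scoped NNReal

namespace Pool.Agent.Results.MP_fe87ae_co.ClosedWinningSet

variable {M : Type*} [MetricSpace M]

/-- `f` is a path of speed at most one which starts at `x`. -/
def IsPath (x : M) (f : ℝ≥0 → M) : Prop := LipschitzWith 1 f ∧ f 0 = x

/-- `F` is a strategy without lookahead for a player who starts at `x`, against an opponent who
starts at `y`: it answers every path of the opponent by a path from `x`, and if two paths of the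
opponent agree up to time `t`, then so do the answers. -/
structure IsStrategy (x y : M) (F : (ℝ≥0 → M) → (ℝ≥0 → M)) : Prop where
  path : ∀ c, IsPath y c → IsPath x (F c)
  nolook : ∀ c c', IsPath y c → IsPath y c' → ∀ t, (∀ s, s ≤ t → c s = c' s) →
    ∀ s, s ≤ t → F c s = F c' s

/-- The Lion, starting at `x`, has a strategy which forces `D t (Lion's place) (Christian's place)`
at some time `t`, whatever the Christian, starting at `y`, does. -/
def Force (x y : M) (D : ℝ≥0 → M → M → Prop) : Prop :=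
  ∃ F, IsStrategy x y F ∧ ∀ c, IsPath y c → ∃ t, D t (F c t) (c t)

/-- The Lion has a winning strategy in the game of unbounded time. -/
def LionWins (x y : M) : Prop := Force x y (fun _ a b => a = b)

/-- The Christian has a winning strategy in the game of unbounded time. -/
def ChristianWins (x y : M) : Prop :=
  ∃ G, IsStrategy y x G ∧ ∀ l, IsPath x l → ∀ t, G l t ≠ l t

/-- The Christian has a strategy which keeps the pair of places out of `K` for ever. -/
def Avoids (K : Set (M × M)) (x y : M) : Prop :=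
  ∃ G, IsStrategy y x G ∧ ∀ l, IsPath x l → ∀ t, (l t, G l t) ∉ K

/-- The Lion has a strategy which forces the pair of places into `K` by the time `T`. -/
def ForceIn (T : ℝ≥0) (K : Set (M × M)) (x y : M) : Prop :=
  Force x y (fun t a b => t ≤ T ∧ (a, b) ∈ K)

/-- The Lion has a strategy which catches the Christian by the time `T`. -/
def LionWinsBy (T : ℝ≥0) (x y : M) : Prop := Force x y (fun t a b => t ≤ T ∧ a = b)

/-! ### paths -/

theorem lip_of {f : ℝ≥0 → M} (h : ∀ s t : ℝ≥0, s ≤ t → dist (f s) (f t) ≤ (t : ℝ) - s) :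
    LipschitzWith 1 f := by
  apply LipschitzWith.of_dist_le_mul
  intro s t
  rw [NNReal.coe_one, one_mul, NNReal.dist_eq]
  rcases le_total s t with hst | hst
  · have h1 := h s t hst
    rw [abs_sub_comm, abs_of_nonneg (sub_nonneg.2 (NNReal.coe_le_coe.2 hst))]; exact h1
  · have h1 := h t s hst
    rw [dist_comm, abs_of_nonneg (sub_nonneg.2 (NNReal.coe_le_coe.2 hst))]; exact h1

theorem of_lip {f : ℝ≥0 → M} (h : LipschitzWith 1 f) {s t : ℝ≥0} (hst : s ≤ t) :
    dist (f s) (f t) ≤ (t : ℝ) - s := by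
  have h1 := h.dist_le_mul s t
  rw [NNReal.coe_one, one_mul, NNReal.dist_eq, abs_sub_comm,
    abs_of_nonneg (sub_nonneg.2 (NNReal.coe_le_coe.2 hst))] at h1
  exact h1

theorem isPath_const (x : M) : IsPath x (fun _ => x) := by
  refine ⟨lip_of fun s t h => ?_, rfl⟩
  rw [dist_self]
  exact sub_nonneg.2 (NNReal.coe_le_coe.2 h)

theorem isPath_shift {y : M} {c : ℝ≥0 → M} (h : IsPath y c) (δ : ℝ≥0) :
    IsPath (c δ) (fun s => c (δ + s)) := by
  refine ⟨lip_of fun s t hst => ?_, by simp⟩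
  have := of_lip h.1 (s := δ + s) (t := δ + t) (by gcongr)
  push_cast at this
  linarith

/-- the place `x'` can be reached from `x` in time `δ` -/
def Rch (δ : ℝ≥0) (x x' : M) : Prop := ∃ p, IsPath x p ∧ p δ = x'

/-- a geodesic space: from `a` one can reach `b` within the time `dist a b` -/
def Geodesic (M : Type*) [MetricSpace M] : Prop := ∀ a b : M, Rch (nndist a b) a b

/-! ### one step of the Lion -/

theorem force_step {δ : ℝ≥0} {x y x' : M} {D : ℝ≥0 → M → M → Prop} (hx : Rch δ x x')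
    (h : ∀ y', Rch δ y y' → Force x' y' (fun t a b => D (δ + t) a b)) : Force x y D := by
  classical
  obtain ⟨p, hp, hpx⟩ := hx
  have h1 : ∀ y' : M, ∃ F : (ℝ≥0 → M) → (ℝ≥0 → M), Rch δ y y' → IsStrategy x' y' F ∧
      ∀ c, IsPath y' c → ∃ t, D (δ + t) (F c t) (c t) := by
    intro y'
    by_cases hy : Rch δ y y'
    · obtain ⟨F, hF⟩ := h y' hy
      exact ⟨F, fun _ => hF⟩
    · exact ⟨fun c => c, fun h => absurd h hy⟩
  choose S hS using h1
  have hR : ∀ c, IsPath y c → Rch δ y (c δ) := fun c hc => ⟨c, hc, rfl⟩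
  refine ⟨fun c t => if t ≤ δ then p t else S (c δ) (fun s => c (δ + s)) (t - δ), ⟨?_, ?_⟩, ?_⟩
  · intro c hc
    have hq := ((hS (c δ) (hR c hc)).1).path _ (isPath_shift hc δ)
    set q := S (c δ) (fun s => c (δ + s)) with hqd
    refine ⟨lip_of fun s t hst => ?_, ?_⟩
    · by_cases ht : t ≤ δ
      · rw [if_pos ht, if_pos (hst.trans ht)]
        exact of_lip hp.1 hst
      · rw [if_neg ht]
        have ht' : δ ≤ t := (not_le.1 ht).le
        by_cases hs : s ≤ δ
        · rw [if_pos hs]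
          have e1 := of_lip hp.1 hs
          have e2 := of_lip hq.1 (s := 0) (t := t - δ) zero_le
          rw [hpx] at e1
          rw [hq.2, NNReal.coe_sub ht', NNReal.coe_zero] at e2
          have e3 := dist_triangle (p s) x' (q (t - δ))
          linarith
        · rw [if_neg hs]
          have hs' : δ ≤ s := (not_le.1 hs).le
          have e2 := of_lip hq.1 (s := s - δ) (t := t - δ) (tsub_le_tsub_right hst δ)
          rw [NNReal.coe_sub ht', NNReal.coe_sub hs'] at e2
          linarith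
    · show (if (0 : ℝ≥0) ≤ δ then p 0 else q (0 - δ)) = x
      rw [if_pos zero_le]
      exact hp.2
  · intro c c' hc hc' t ht s hs
    by_cases hsd : s ≤ δ
    · simp only [if_pos hsd]
    · simp only [if_neg hsd]
      have hsd' : δ ≤ s := (not_le.1 hsd).le
      have e1 : c δ = c' δ := ht δ (hsd'.trans hs)
      rw [← e1]
      refine ((hS (c δ) (hR c hc)).1).nolook _ _ (isPath_shift hc δ) ?_ (t - δ) ?_ (s - δ)
        (tsub_le_tsub_right hs δ)
      · rw [e1]; exact isPath_shift hc' δ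
      · intro r hr
        apply ht
        have hdt : δ ≤ t := hsd'.trans hs
        calc δ + r ≤ δ + (t - δ) := by gcongr
          _ = t := add_tsub_cancel_of_le hdt
  · intro c hc
    obtain ⟨t, ht⟩ := (hS (c δ) (hR c hc)).2 _ (isPath_shift hc δ)
    refine ⟨δ + t, ?_⟩
    have hq := ((hS (c δ) (hR c hc)).1).path _ (isPath_shift hc δ)
    have e : (if δ + t ≤ δ then p (δ + t) else
        S (c δ) (fun s => c (δ + s)) (δ + t - δ)) = S (c δ) (fun s => c (δ + s)) t := by
      by_cases h0 : δ + t ≤ δ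
      · have : t = 0 := by
          have h2 : (δ : ℝ) + t ≤ δ := by exact_mod_cast h0
          have h3 : (t : ℝ) ≤ 0 := by linarith
          exact le_antisymm (by exact_mod_cast h3) zero_le
        rw [if_pos h0, this, add_zero, hpx, hq.2]
      · rw [if_neg h0, add_tsub_cancel_left]
    show D (δ + t) (if δ + t ≤ δ then p (δ + t) else
        S (c δ) (fun s => c (δ + s)) (δ + t - δ)) (c (δ + t))
    rw [e]
    exact ht

/-! ### infinitely many segments -/

/-- the concatenation of the paths `seg 0`, `seg 1`, ..., each used for the time `δ` -/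
noncomputable def join (δ : ℝ≥0) (seg : ℕ → ℝ≥0 → M) : ℝ≥0 → M :=
  fun t => seg ⌊t / δ⌋₊ (t - ⌊t / δ⌋₊ * δ)

theorem exists_rep {δ : ℝ≥0} (hδ : 0 < δ) (t : ℝ≥0) :
    ⌊t / δ⌋₊ * δ ≤ t ∧ t - ⌊t / δ⌋₊ * δ < δ := by
  have h1 : (⌊t / δ⌋₊ : ℝ≥0) ≤ t / δ := Nat.floor_le zero_le
  have h2 : t / δ < ⌊t / δ⌋₊ + 1 := Nat.lt_floor_add_one _
  have h3 : ⌊t / δ⌋₊ * δ ≤ t := by
    calc (⌊t / δ⌋₊ : ℝ≥0) * δ ≤ t / δ * δ := by gcongr
      _ = t := div_mul_cancel₀ t hδ.ne'
  refine ⟨h3, ?_⟩
  rw [div_lt_iff₀ hδ] at h2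
  have h4 : (t : ℝ) < (⌊t / δ⌋₊ + 1) * δ := by exact_mod_cast h2
  rw [← NNReal.coe_lt_coe, NNReal.coe_sub h3]
  push_cast
  linarith

omit [MetricSpace M] in
theorem join_eq {δ : ℝ≥0} (hδ : 0 < δ) (seg : ℕ → ℝ≥0 → M) (k : ℕ) {r : ℝ≥0} (hr : r < δ) :
    join δ seg (k * δ + r) = seg k r := by
  have h1 : ⌊(k * δ + r) / δ⌋₊ = k := by
    rw [Nat.floor_eq_iff zero_le]
    constructor
    · rw [le_div_iff₀ hδ]; exact le_self_add
    · rw [div_lt_iff₀ hδ, add_mul, one_mul]; gcongr
  unfold join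
  rw [h1, add_tsub_cancel_left]

theorem join_lip {δ : ℝ≥0} (hδ : 0 < δ) {seg : ℕ → ℝ≥0 → M} (hs : ∀ k, LipschitzWith 1 (seg k))
    (hj : ∀ k, seg k δ = seg (k + 1) 0) : LipschitzWith 1 (join δ seg) := by
  have key : ∀ n : ℕ, ∀ a : ℕ, ∀ r r' : ℝ≥0, r < δ → r' < δ →
      (a * δ + r : ℝ≥0) ≤ ((a + n : ℕ) : ℝ≥0) * δ + r' →
      dist (join δ seg (a * δ + r)) (join δ seg (((a + n : ℕ) : ℝ≥0) * δ + r')) ≤
        ((a + n : ℕ) : ℝ) * δ + r' - (a * δ + r) := by
    intro n
    induction n with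
    | zero =>
      intro a r r' hr hr' h
      rw [join_eq hδ seg a hr, join_eq hδ seg (a + 0) hr']
      simp only [add_zero] at h ⊢
      have h1 : r ≤ r' := le_of_add_le_add_left h
      have := of_lip (hs a) h1
      linarith
    | succ n ih =>
      intro a r r' hr hr' h
      have e1 : join δ seg (((a + 1 : ℕ) : ℝ≥0) * δ + 0) = seg a δ := by
        rw [join_eq hδ seg (a + 1) hδ, hj]
      have e2 := ih (a + 1) 0 r' hδ hr' (by
        have : a + 1 + n = a + (n + 1) := by ring
        rw [this, add_zero]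
        calc ((a + 1 : ℕ) : ℝ≥0) * δ ≤ ((a + (n + 1) : ℕ) : ℝ≥0) * δ := by
              gcongr; omega
          _ ≤ _ := le_self_add)
      have e3 : a + 1 + n = a + (n + 1) := by ring
      rw [e3, e1] at e2
      rw [join_eq hδ seg a hr]
      have e4 := of_lip (hs a) hr.le
      have e5 := dist_triangle (seg a r) (seg a δ)
        (join δ seg (((a + (n + 1) : ℕ) : ℝ≥0) * δ + r'))
      push_cast at e2 e4 e5 ⊢
      linarith
  apply lip_of
  intro s t hst
  obtain ⟨h1, h2⟩ := exists_rep hδ s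
  obtain ⟨h3, h4⟩ := exists_rep hδ t
  set a := ⌊s / δ⌋₊ with ha
  set b := ⌊t / δ⌋₊ with hb
  have hab : a ≤ b := by
    rw [ha, hb]
    exact Nat.floor_le_floor (by gcongr)
  obtain ⟨n, hn⟩ := Nat.exists_eq_add_of_le hab
  have e1 : (a : ℝ≥0) * δ + (s - a * δ) = s := add_tsub_cancel_of_le h1
  have e2 : ((a + n : ℕ) : ℝ≥0) * δ + (t - b * δ) = t := by
    rw [← hn]; exact add_tsub_cancel_of_le h3
  have := key n a (s - a * δ) (t - b * δ) h2 h4 (by rw [e1, e2]; exact hst)
  rw [e1, e2] at this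
  have e3 : ((a + n : ℕ) : ℝ) * δ + ((t - b * δ : ℝ≥0) : ℝ) = t := by exact_mod_cast e2
  have e4 : (a : ℝ) * δ + ((s - a * δ : ℝ≥0) : ℝ) = s := by exact_mod_cast e1
  rw [e3, e4] at this
  exact this

/-! ### reaching a set within a given time -/

/-- the Christian, who sees each step of the Lion in advance, can keep the distance of the pair
of places from `K` at least `ε` for `n` steps of length `δ` -/
def Av (δ : ℝ≥0) (ε : ℝ) (K : Set (M × M)) : ℕ → M → M → Prop
  | 0 => fun x y => ε ≤ Metric.infDist (x, y) K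
  | n + 1 => fun x y => ε ≤ Metric.infDist (x, y) K ∧
      ∀ x', Rch δ x x' → ∃ y', Rch δ y y' ∧ Av δ ε K n x' y'

theorem Av_fst {δ : ℝ≥0} {ε : ℝ} {K : Set (M × M)} {n : ℕ} {x y : M} (h : Av δ ε K n x y) :
    ε ≤ Metric.infDist (x, y) K := by
  cases n with
  | zero => exact h
  | succ n => exact h.1

theorem force_of_not_Av {δ : ℝ≥0} {ε : ℝ} {K : Set (M × M)} (n : ℕ) : ∀ x y : M,
    ¬ Av δ ε K n x y → ForceIn (n * δ) {z | Metric.infDist z K < ε} x y := by
  have hbase : ∀ (n : ℕ) (x y : M), Metric.infDist (x, y) K < ε →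
      ForceIn (n * δ) {z | Metric.infDist z K < ε} x y := by
    intro n x y h
    refine ⟨fun _ _ => x, ⟨fun _ _ => isPath_const x, fun _ _ _ _ _ _ _ _ => rfl⟩, fun c hc => ?_⟩
    exact ⟨0, zero_le, by rw [hc.2]; exact h⟩
  induction n with
  | zero =>
    intro x y h
    exact hbase 0 x y (not_le.1 h)
  | succ n ih =>
    intro x y h
    by_cases hd : ε ≤ Metric.infDist (x, y) K
    · have h1 : ∃ x', Rch δ x x' ∧ ∀ y', Rch δ y y' → ¬ Av δ ε K n x' y' := by
        by_contra hno
        push Not at hno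
        exact h ⟨hd, hno⟩
      obtain ⟨x', hx', h2⟩ := h1
      apply force_step hx'
      intro y' hy'
      obtain ⟨F, hF, hF2⟩ := ih x' y' (h2 y' hy')
      refine ⟨F, hF, fun c hc => ?_⟩
      obtain ⟨t, ht, ht2⟩ := hF2 c hc
      refine ⟨t, ?_, ht2⟩
      calc δ + t ≤ δ + n * δ := by gcongr
        _ = ((n + 1 : ℕ) : ℝ≥0) * δ := by push_cast; ring
    · exact hbase _ x y (not_le.1 hd)

/-! ### the Christian with a delay -/

/-- the places of the Christian who uses the rules `step k` against `l` -/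
def places (δ : ℝ≥0) (step : ℕ → M → M → M → (ℝ≥0 → M)) (y : M) (l : ℝ≥0 → M) : ℕ → M
  | 0 => y
  | k + 1 => step k (l (k * δ)) (places δ step y l k) (l (((k + 1 : ℕ) : ℝ≥0) * δ)) δ

/-- the segments of the Christian who uses the rules `step k` against `l` with the delay `δ` -/
def segs (δ : ℝ≥0) (step : ℕ → M → M → M → (ℝ≥0 → M)) (y : M) (l : ℝ≥0 → M) : ℕ → ℝ≥0 → M
  | 0 => fun _ => y
  | k + 1 => step k (l (k * δ)) (places δ step y l k) (l (((k + 1 : ℕ) : ℝ≥0) * δ))

theorem keeps_of {δ : ℝ≥0} (hδ : 0 < δ) {ε : ℝ} (h3 : 3 * (δ : ℝ) < ε) {x0 y0 : M}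
    (K : Set (M × M)) (n : ℕ) (h0 : Av δ ε K n x0 y0) :
    ∃ G, IsStrategy y0 x0 G ∧ ∀ l, IsPath x0 l → ∀ t, t ≤ n * δ → (l t, G l t) ∉ K := by
  classical
  have h1 : ∀ (k : ℕ) (x y x' : M), ∃ q : ℝ≥0 → M, IsPath y q ∧
      (k < n → Av δ ε K (n - k) x y → Rch δ x x' → Av δ ε K (n - (k + 1)) x' (q δ)) := by
    intro k x y x'
    by_cases h : k < n ∧ Av δ ε K (n - k) x y ∧ Rch δ x x'
    · obtain ⟨m, hm⟩ : ∃ m, n - k = m + 1 := ⟨n - k - 1, by omega⟩
      have h2 := h.2.1
      rw [hm] at h2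
      obtain ⟨y', ⟨q, hq, hqy⟩, hw⟩ := h2.2 x' h.2.2
      refine ⟨q, hq, fun _ _ _ => ?_⟩
      have : n - (k + 1) = m := by omega
      rw [hqy, this]; exact hw
    · exact ⟨fun _ => y, isPath_const y, fun a b c => absurd ⟨a, b, c⟩ h⟩
  choose step hstep1 hstep2 using h1
  have hR : ∀ (l : ℝ≥0 → M), IsPath x0 l → ∀ k : ℕ,
      Rch δ (l (k * δ)) (l (((k + 1 : ℕ) : ℝ≥0) * δ)) := by
    intro l hl k
    refine ⟨fun s => l (k * δ + s), isPath_shift hl _, ?_⟩
    show l (k * δ + δ) = _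
    congr 1
    push_cast
    ring
  have hP : ∀ (l : ℝ≥0 → M), IsPath x0 l → ∀ k : ℕ, k ≤ n →
      Av δ ε K (n - k) (l (k * δ)) (places δ step y0 l k) := by
    intro l hl k
    induction k with
    | zero =>
      intro _
      have : l (((0 : ℕ) : ℝ≥0) * δ) = x0 := by rw [Nat.cast_zero, zero_mul]; exact hl.2
      rw [this]; exact h0
    | succ k ih =>
      intro hk
      exact hstep2 k _ _ _ (by omega) (ih (by omega)) (hR l hl k)
  have hS : ∀ (l : ℝ≥0 → M), ∀ k : ℕ,
      IsPath (places δ step y0 l k) (segs δ step y0 l (k + 1)) := fun l k => hstep1 k _ _ _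
  have hSl : ∀ (l : ℝ≥0 → M), ∀ k : ℕ, LipschitzWith 1 (segs δ step y0 l k) := by
    intro l k
    cases k with
    | zero => exact (isPath_const y0).1
    | succ k => exact (hS l k).1
  have hJ : ∀ (l : ℝ≥0 → M), ∀ k : ℕ,
      segs δ step y0 l k δ = segs δ step y0 l (k + 1) 0 := by
    intro l k
    rw [(hS l k).2]
    cases k with
    | zero => rfl
    | succ k => rfl
  refine ⟨fun l => join δ (segs δ step y0 l), ⟨?_, ?_⟩, ?_⟩
  · intro l hl
    refine ⟨join_lip hδ (hSl l) (hJ l), ?_⟩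
    have := join_eq hδ (segs δ step y0 l) 0 hδ
    rw [Nat.cast_zero, zero_mul, zero_add] at this
    rw [this]; rfl
  · intro l l' hl hl' t ht s hs
    have hle : ∀ k : ℕ, (k : ℝ≥0) * δ ≤ t → places δ step y0 l k = places δ step y0 l' k := by
      intro k
      induction k with
      | zero => intro _; rfl
      | succ k ih =>
        intro hk
        have hk' : (k : ℝ≥0) * δ ≤ t := le_trans (by gcongr; omega) hk
        show step k _ _ _ δ = step k _ _ _ δ
        rw [ih hk', ht _ hk', ht _ hk]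
    obtain ⟨h1, h2⟩ := exists_rep hδ s
    show join δ (segs δ step y0 l) s = join δ (segs δ step y0 l') s
    unfold join
    have h4 : segs δ step y0 l ⌊s / δ⌋₊ = segs δ step y0 l' ⌊s / δ⌋₊ := by
      generalize ⌊s / δ⌋₊ = k at h1
      cases k with
      | zero => rfl
      | succ k =>
        have hk : (((k + 1 : ℕ) : ℝ≥0)) * δ ≤ t := h1.trans hs
        have hk' : (k : ℝ≥0) * δ ≤ t := le_trans (by gcongr; omega) hk
        show step k _ _ _ = step k _ _ _
        rw [hle k hk', ht _ hk', ht _ hk]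
    rw [h4]
  · intro l hl t htn hmem
    have htn' : ⌊t / δ⌋₊ ≤ n := by
      have h5 : t / δ ≤ n := by rw [div_le_iff₀ hδ]; exact htn
      calc ⌊t / δ⌋₊ ≤ ⌊(n : ℝ≥0)⌋₊ := Nat.floor_le_floor h5
        _ = n := Nat.floor_natCast n
    obtain ⟨h1, h2⟩ := exists_rep hδ t
    change (l t, segs δ step y0 l ⌊t / δ⌋₊ (t - ⌊t / δ⌋₊ * δ)) ∈ K at hmem
    generalize ⌊t / δ⌋₊ = k at h1 h2 hmem htn'
    have hd : (0 : ℝ) < δ := by exact_mod_cast hδ
    cases k with
    | zero =>
      change (l t, y0) ∈ K at hmem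
      rw [Nat.cast_zero, zero_mul, tsub_zero] at h2
      have e1 := of_lip hl.1 (s := 0) (t := t) zero_le
      rw [hl.2, NNReal.coe_zero] at e1
      have e3 := Av_fst h0
      have e2 := Metric.infDist_le_dist_of_mem (x := (x0, y0)) hmem
      have e5 : dist (x0, y0) (l t, y0) = dist x0 (l t) := by
        rw [Prod.dist_eq]; simp
      have e4 : (t : ℝ) < δ := by exact_mod_cast h2
      linarith
    | succ k =>
      have hk : (k : ℝ≥0) * δ ≤ t := le_trans (by gcongr; omega) h1
      have e1 := of_lip hl.1 hk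
      have e2 := of_lip (hS l k).1 (s := 0) (t := t - (((k + 1 : ℕ) : ℝ≥0)) * δ) zero_le
      rw [(hS l k).2] at e2
      have e3 := Av_fst (hP l hl k (by omega))
      have e4 : (((t - (((k + 1 : ℕ) : ℝ≥0)) * δ : ℝ≥0)) : ℝ) < δ := by exact_mod_cast h2
      rw [NNReal.coe_zero] at e2
      have e5 : (t : ℝ) - ((k : ℝ) + 1) * δ < δ := by
        rw [NNReal.coe_sub h1] at e4
        push_cast at e4
        exact e4
      have e6 := Metric.infDist_le_dist_of_mem (x := (l (k * δ), places δ step y0 l k)) hmem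
      rw [Prod.dist_eq] at e6
      push_cast at e1 e5
      have e7 : max (dist (l (k * δ)) (l t)) (dist (places δ step y0 l k)
          (segs δ step y0 l (k + 1) (t - (((k + 1 : ℕ) : ℝ≥0)) * δ))) ≤ 2 * δ :=
        max_le (by linarith) (by linarith)
      have e8 := e6.trans e7
      linarith

/-! ### limits of strategies -/

open Filter Topology in
theorem forceIn_limit [CompactSpace M] {T : ℝ≥0} {K : Set (M × M)} (hK : IsClosed K)
    (hne : K.Nonempty) {x y : M}
    (h : ∀ m : ℕ, ForceIn (T + 1 / ((m : ℝ≥0) + 1))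
      {z | Metric.infDist z K < 1 / ((m : ℝ) + 1)} x y) :
    ForceIn T K x y := by
  classical
  choose F hF hF2 using h
  let U : Ultrafilter ℕ := Filter.hyperfilter ℕ
  have hU : (U : Filter ℕ) ≤ atTop := by
    rw [← Nat.cofinite_eq_atTop]
    exact Filter.hyperfilter_le_cofinite
  have hlim : ∀ u : ℕ → M, ∃ a, Tendsto u U (𝓝 a) := by
    intro u
    obtain ⟨a, -, ha⟩ := (isCompact_univ (X := M)).ultrafilter_le_nhds (U.map u) (by simp)
    exact ⟨a, ha⟩
  choose L hL using hlim
  have hpath : ∀ c, IsPath y c → IsPath x (fun t => L (fun m => F m c t)) := by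
    intro c hc
    refine ⟨lip_of fun s t hst => ?_, ?_⟩
    · have e1 := (hL (fun m => F m c s)).dist (hL (fun m => F m c t))
      exact le_of_tendsto e1 (Eventually.of_forall fun m => of_lip ((hF m).path c hc).1 hst)
    · refine tendsto_nhds_unique (hL (fun m => F m c 0)) ?_
      have : (fun m => F m c 0) = fun _ => x := by
        funext m; exact ((hF m).path c hc).2
      rw [this]
      exact tendsto_const_nhds
  refine ⟨fun c t => L (fun m => F m c t), ⟨hpath, ?_⟩, ?_⟩
  · intro c c' hc hc' t ht s hs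
    have : (fun m => F m c s) = fun m => F m c' s := by
      funext m
      exact (hF m).nolook c c' hc hc' t ht s hs
    simp only [this]
  · intro c hc
    have h1 : ∀ m : ℕ, ∃ t, t ≤ T + 1 / ((m : ℝ≥0) + 1) ∧
        Metric.infDist (F m c t, c t) K < 1 / ((m : ℝ) + 1) := by
      intro m
      obtain ⟨t, ht, ht2⟩ := hF2 m c hc
      exact ⟨t, ht, ht2⟩
    choose τ hτ1 hτ2 using h1
    obtain ⟨t, ht, hlt⟩ := (isCompact_Icc (a := (0 : ℝ≥0)) (b := T + 1)).ultrafilter_le_nhds
      (U.map τ) (by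
        rw [Filter.le_principal_iff]
        refine Filter.mem_map.2 (Filter.univ_mem' fun m => ⟨zero_le, (hτ1 m).trans ?_⟩)
        gcongr
        rw [div_le_one (by positivity)]
        exact le_add_self)
    have hlt' : Tendsto τ U (𝓝 t) := hlt
    have hT : t ≤ T := by
      have e0 : Tendsto (fun m : ℕ => (T : ℝ) + 1 / ((m : ℝ) + 1)) U (𝓝 ((T : ℝ) + 0)) :=
        (tendsto_one_div_add_atTop_nhds_zero_nat.mono_left hU).const_add _
      have e1 : Tendsto (fun m => (τ m : ℝ)) U (𝓝 (t : ℝ)) :=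
        (NNReal.continuous_coe.tendsto t).comp hlt'
      rw [add_zero] at e0
      have e2 := le_of_tendsto_of_tendsto' e1 e0 (fun m => by
        have := NNReal.coe_le_coe.2 (hτ1 m)
        push_cast at this
        exact this)
      exact_mod_cast e2
    refine ⟨t, hT, ?_⟩
    have hd : Tendsto (fun m => dist (τ m) t) U (𝓝 0) := by
      have := hlt'.dist (tendsto_const_nhds (x := t))
      rwa [dist_self] at this
    have hc1 : Tendsto (fun m => c (τ m)) U (𝓝 (c t)) :=
      (hc.1.continuous.tendsto t).comp hlt'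
    have hF1 : Tendsto (fun m => F m c (τ m)) U (𝓝 (L (fun m => F m c t))) := by
      rw [tendsto_iff_dist_tendsto_zero]
      have e1 : Tendsto (fun m => dist (τ m) t + dist (F m c t) (L (fun m => F m c t))) U
          (𝓝 (0 + 0)) :=
        hd.add (tendsto_iff_dist_tendsto_zero.1 (hL (fun m => F m c t)))
      rw [add_zero] at e1
      refine squeeze_zero (fun _ => dist_nonneg) (fun m => ?_) e1
      have e2 := ((hF m).path c hc).1.dist_le_mul (τ m) t
      rw [NNReal.coe_one, one_mul] at e2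
      exact (dist_triangle _ (F m c t) _).trans (by gcongr)
    have hz : Tendsto (fun m => (F m c (τ m), c (τ m))) U (𝓝 (L (fun m => F m c t), c t)) :=
      hF1.prodMk_nhds hc1
    have hi : Tendsto (fun m => Metric.infDist (F m c (τ m), c (τ m)) K) U
        (𝓝 (Metric.infDist (L (fun m => F m c t), c t) K)) :=
      ((Metric.continuous_infDist_pt K).tendsto _).comp hz
    have h0 : Tendsto (fun m : ℕ => 1 / ((m : ℝ) + 1)) U (𝓝 0) :=
      tendsto_one_div_add_atTop_nhds_zero_nat.mono_left hU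
    have hle : Metric.infDist (L (fun m => F m c t), c t) K ≤ 0 :=
      le_of_tendsto_of_tendsto' hi h0 fun m => (hτ2 m).le
    show (L (fun m => F m c t), c t) ∈ K
    rw [hK.mem_iff_infDist_zero hne]
    exact le_antisymm hle Metric.infDist_nonneg

/-! ### the Lion switches at the first entrance -/

theorem lionWins_of_forceIn {T : ℝ≥0} {K : Set (M × M)} (hK : IsClosed K)
    (hKL : ∀ z ∈ K, LionWins z.1 z.2) {x y : M} (h : ForceIn T K x y) : LionWins x y := by
  classical
  obtain ⟨F, hF, hF2⟩ := h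
  have h1 : ∀ z : M × M, ∃ S : (ℝ≥0 → M) → (ℝ≥0 → M), z ∈ K → IsStrategy z.1 z.2 S ∧
      ∀ c, IsPath z.2 c → ∃ t, S c t = c t := by
    intro z
    by_cases hz : z ∈ K
    · obtain ⟨S, hS⟩ := hKL z hz
      exact ⟨S, fun _ => hS⟩
    · exact ⟨fun c => c, fun h => absurd h hz⟩
  choose S hS using h1
  have hcl : ∀ c, IsPath y c → IsClosed {t : ℝ≥0 | (F c t, c t) ∈ K} := fun c hc =>
    hK.preimage ((hF.path c hc).1.continuous.prodMk hc.1.continuous)
  have hne : ∀ c, IsPath y c → {t : ℝ≥0 | (F c t, c t) ∈ K}.Nonempty := by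
    intro c hc
    obtain ⟨t, -, ht⟩ := hF2 c hc
    exact ⟨t, ht⟩
  let τ : (ℝ≥0 → M) → ℝ≥0 := fun c => sInf {t : ℝ≥0 | (F c t, c t) ∈ K}
  have hτ : ∀ c, IsPath y c → (F c (τ c), c (τ c)) ∈ K := fun c hc =>
    (hcl c hc).csInf_mem (hne c hc) (OrderBot.bddBelow _)
  have hτle : ∀ c t, (F c t, c t) ∈ K → τ c ≤ t := fun c t ht =>
    csInf_le (OrderBot.bddBelow _) ht
  have hsame : ∀ c c', IsPath y c → IsPath y c' → ∀ t, (∀ s, s ≤ t → c s = c' s) →
      τ c ≤ t → τ c' ≤ τ c := by
    intro c c' hc hc' t ht hle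
    apply hτle
    rw [← hF.nolook c c' hc hc' t ht (τ c) hle, ← ht (τ c) hle]
    exact hτ c hc
  refine ⟨fun c t => if t ≤ τ c then F c t else
    S (F c (τ c), c (τ c)) (fun s => c (τ c + s)) (t - τ c), ⟨?_, ?_⟩, ?_⟩
  · intro c hc
    have hq := ((hS _ (hτ c hc)).1).path _ (isPath_shift hc (τ c))
    set q := S (F c (τ c), c (τ c)) (fun s => c (τ c + s)) with hqd
    have hp := hF.path c hc
    refine ⟨lip_of fun s t hst => ?_, ?_⟩
    · by_cases ht : t ≤ τ c
      · rw [if_pos ht, if_pos (hst.trans ht)]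
        exact of_lip hp.1 hst
      · rw [if_neg ht]
        have ht' : τ c ≤ t := (not_le.1 ht).le
        by_cases hs : s ≤ τ c
        · rw [if_pos hs]
          have e1 := of_lip hp.1 hs
          have e2 := of_lip hq.1 (s := 0) (t := t - τ c) zero_le
          rw [hq.2, NNReal.coe_sub ht', NNReal.coe_zero] at e2
          have e3 := dist_triangle (F c s) (F c (τ c)) (q (t - τ c))
          simp only at e2
          linarith
        · rw [if_neg hs]
          have hs' : τ c ≤ s := (not_le.1 hs).le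
          have e2 := of_lip hq.1 (s := s - τ c) (t := t - τ c) (tsub_le_tsub_right hst _)
          rw [NNReal.coe_sub ht', NNReal.coe_sub hs'] at e2
          linarith
    · show (if (0 : ℝ≥0) ≤ τ c then F c 0 else q (0 - τ c)) = x
      rw [if_pos zero_le]
      exact hp.2
  · intro c c' hc hc' t ht s hs
    have hts : ∀ r, r ≤ s → c r = c' r := fun r hr => ht r (hr.trans hs)
    by_cases h1 : s ≤ τ c
    · by_cases h2 : s ≤ τ c'
      · simp only [if_pos h1, if_pos h2]
        exact hF.nolook c c' hc hc' t ht s hs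
      · have h3 := hsame c' c hc' hc s (fun r hr => (hts r hr).symm) (not_le.1 h2).le
        exact absurd (h1.trans h3) h2
    · have h4 := (not_le.1 h1).le
      have h5 := hsame c c' hc hc' s hts h4
      have h6 := hsame c' c hc' hc s (fun r hr => (hts r hr).symm) (h5.trans h4)
      have h7 : τ c = τ c' := le_antisymm h6 h5
      have h8 : ¬ s ≤ τ c' := by rw [← h7]; exact h1
      simp only [if_neg h1, if_neg h8]
      rw [← h7]
      have e1 : F c (τ c) = F c' (τ c) := hF.nolook c c' hc hc' s hts (τ c) h4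
      have e2 : c (τ c) = c' (τ c) := hts _ h4
      rw [← e1, ← e2]
      refine ((hS _ (hτ c hc)).1).nolook _ _ (isPath_shift hc (τ c)) ?_ (s - τ c) ?_ (s - τ c)
        le_rfl
      · show IsPath (c (τ c)) _
        rw [e2]; exact isPath_shift hc' (τ c)
      · intro r hr
        apply hts
        calc τ c + r ≤ τ c + (s - τ c) := by gcongr
          _ = s := add_tsub_cancel_of_le h4
  · intro c hc
    obtain ⟨t, ht⟩ := (hS _ (hτ c hc)).2 _ (isPath_shift hc (τ c))
    refine ⟨τ c + t, ?_⟩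
    have hq := ((hS _ (hτ c hc)).1).path _ (isPath_shift hc (τ c))
    show (if τ c + t ≤ τ c then F c (τ c + t) else
        S (F c (τ c), c (τ c)) (fun s => c (τ c + s)) (τ c + t - τ c)) = c (τ c + t)
    by_cases h0 : τ c + t ≤ τ c
    · have : t = 0 := by
        have h2 : (τ c : ℝ) + t ≤ τ c := by exact_mod_cast h0
        have h3 : (t : ℝ) ≤ 0 := by linarith
        exact le_antisymm (by exact_mod_cast h3) zero_le
      subst this
      rw [hq.2] at ht
      rw [if_pos h0, add_zero]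
      simp only [add_zero] at ht
      exact ht
    · rw [if_neg h0, add_tsub_cancel_left]
      exact ht

/-! ### the Christian repeats strategies of length `τ` -/

/-- the places of the Christian who changes to a new strategy after each time `τ` -/
def pl (τ : ℝ≥0) (G : M × M → (ℝ≥0 → M) → (ℝ≥0 → M)) (y : M) (l : ℝ≥0 → M) : ℕ → M
  | 0 => y
  | k + 1 => G (l (k * τ), pl τ G y l k) (fun s => l (k * τ + s)) τ

theorem avoids_of {τ : ℝ≥0} (hτ : 0 < τ) (K : Set (M × M))
    (h : ∀ z : M × M, z ∉ K → ∃ G, IsStrategy z.2 z.1 G ∧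
      ∀ l, IsPath z.1 l → ∀ t, t ≤ τ → (l t, G l t) ∉ K) {x y : M} (hxy : (x, y) ∉ K) :
    Avoids K x y := by
  classical
  have h1 : ∀ z : M × M, ∃ G : (ℝ≥0 → M) → (ℝ≥0 → M), IsStrategy z.2 z.1 G ∧
      (z ∉ K → ∀ l, IsPath z.1 l → ∀ t, t ≤ τ → (l t, G l t) ∉ K) := by
    intro z
    by_cases hz : z ∉ K
    · obtain ⟨G, hG, hG2⟩ := h z hz
      exact ⟨G, hG, fun _ => hG2⟩
    · exact ⟨fun _ _ => z.2, ⟨fun _ _ => isPath_const z.2, fun _ _ _ _ _ _ _ _ => rfl⟩,
        fun h => absurd h hz⟩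
  choose G hG hG2 using h1
  let sg : (ℝ≥0 → M) → ℕ → ℝ≥0 → M := fun l k =>
    G (l (k * τ), pl τ G y l k) (fun s => l (k * τ + s))
  have hS : ∀ (l : ℝ≥0 → M), IsPath x l → ∀ k : ℕ, IsPath (pl τ G y l k) (sg l k) :=
    fun l hl k => (hG (l (k * τ), pl τ G y l k)).path _ (isPath_shift hl _)
  have hJ : ∀ (l : ℝ≥0 → M), IsPath x l → ∀ k : ℕ, sg l k τ = sg l (k + 1) 0 := by
    intro l hl k
    rw [(hS l hl (k + 1)).2]
    rfl
  have hcast : ∀ k : ℕ, (((k + 1 : ℕ) : ℝ≥0)) * τ = k * τ + τ := by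
    intro k; push_cast; ring
  have hP : ∀ (l : ℝ≥0 → M), IsPath x l → ∀ k : ℕ, (l (k * τ), pl τ G y l k) ∉ K := by
    intro l hl k
    induction k with
    | zero =>
      have : l (((0 : ℕ) : ℝ≥0) * τ) = x := by rw [Nat.cast_zero, zero_mul]; exact hl.2
      rw [this]; exact hxy
    | succ k ih =>
      have := hG2 _ ih (fun s => l (k * τ + s)) (isPath_shift hl _) τ le_rfl
      rw [hcast]
      exact this
  refine ⟨fun l => join τ (sg l), ⟨?_, ?_⟩, ?_⟩
  · intro l hl
    refine ⟨join_lip hτ (fun k => (hS l hl k).1) (hJ l hl), ?_⟩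
    have := join_eq hτ (sg l) 0 hτ
    rw [Nat.cast_zero, zero_mul, zero_add] at this
    rw [this]
    exact (hS l hl 0).2
  · intro l l' hl hl' t ht s hs
    have hle : ∀ k : ℕ, (k : ℝ≥0) * τ ≤ t → pl τ G y l k = pl τ G y l' k := by
      intro k
      induction k with
      | zero => intro _; rfl
      | succ k ih =>
        intro hk
        rw [hcast] at hk
        have hk' : (k : ℝ≥0) * τ ≤ t := le_self_add.trans hk
        show G (l (k * τ), pl τ G y l k) (fun s => l (k * τ + s)) τ =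
          G (l' (k * τ), pl τ G y l' k) (fun s => l' (k * τ + s)) τ
        rw [← ih hk', ← ht _ hk']
        refine (hG _).nolook _ _ (isPath_shift hl _) ?_ τ ?_ τ le_rfl
        · show IsPath (l (k * τ)) _
          rw [ht _ hk']; exact isPath_shift hl' _
        · intro r hr
          exact ht _ (le_trans (by gcongr) hk)
    obtain ⟨h1, h2⟩ := exists_rep hτ s
    show join τ (sg l) s = join τ (sg l') s
    unfold join
    generalize ⌊s / τ⌋₊ = k at h1 h2
    have hk' : (k : ℝ≥0) * τ ≤ t := h1.trans hs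
    show G (l (k * τ), pl τ G y l k) (fun s => l (k * τ + s)) (s - k * τ) =
      G (l' (k * τ), pl τ G y l' k) (fun s => l' (k * τ + s)) (s - k * τ)
    rw [← hle k hk', ← ht _ hk']
    refine (hG _).nolook _ _ (isPath_shift hl _) ?_ (s - k * τ) ?_ (s - k * τ) le_rfl
    · show IsPath (l (k * τ)) _
      rw [ht _ hk']; exact isPath_shift hl' _
    · intro r hr
      apply ht
      calc k * τ + r ≤ k * τ + (s - k * τ) := by gcongr
        _ = s := add_tsub_cancel_of_le h1
        _ ≤ t := hs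
  · intro l hl t
    obtain ⟨h1, h2⟩ := exists_rep hτ t
    show (l t, sg l ⌊t / τ⌋₊ (t - ⌊t / τ⌋₊ * τ)) ∉ K
    generalize ⌊t / τ⌋₊ = k at h1 h2
    have := hG2 _ (hP l hl k) (fun s => l (k * τ + s)) (isPath_shift hl _) (t - k * τ) h2.le
    simp only [add_tsub_cancel_of_le h1] at this
    exact this

/-! ### the results -/

theorem main [CompactSpace M] {τ : ℝ≥0} (hτ : 0 < τ) {K : Set (M × M)} (hK : IsClosed K)
    (hne : K.Nonempty) (h : ∀ a b : M, (a, b) ∉ K → ¬ ForceIn τ K a b) {x y : M}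
    (hxy : (x, y) ∉ K) : Avoids K x y := by
  refine avoids_of hτ K ?_ hxy
  rintro ⟨a, b⟩ hz
  by_contra hno
  apply h a b hz
  refine forceIn_limit hK hne fun m => ?_
  obtain ⟨n, hn⟩ := exists_nat_gt (3 * (τ : ℝ) * ((m : ℝ) + 1))
  have hτ' : (0 : ℝ) < τ := by exact_mod_cast hτ
  have hm : (0 : ℝ) < (m : ℝ) + 1 := by positivity
  have hn0 : (0 : ℝ) < n := lt_trans (by positivity) hn
  have hn1 : (n : ℝ≥0) ≠ 0 := by
    intro h0
    have : (n : ℝ) = 0 := by exact_mod_cast h0
    linarith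
  set δ : ℝ≥0 := τ / n with hδd
  have hδ : 0 < δ := div_pos hτ (lt_of_le_of_ne zero_le (Ne.symm hn1))
  have hnδ : (n : ℝ≥0) * δ = τ := by rw [hδd]; exact mul_div_cancel₀ τ hn1
  have h3 : 3 * (δ : ℝ) < 1 / ((m : ℝ) + 1) := by
    rw [hδd, NNReal.coe_div, NNReal.coe_natCast, lt_div_iff₀ hm, mul_div_assoc', div_mul_eq_mul_div,
      div_lt_one hn0]
    exact hn
  by_cases hA : Av δ (1 / ((m : ℝ) + 1)) K n a b
  · exfalso
    obtain ⟨G, hG, hG2⟩ := keeps_of hδ h3 K n hA
    exact hno ⟨G, hG, fun l hl t ht => hG2 l hl t (by rw [hnδ]; exact ht)⟩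
  · obtain ⟨F, hF, hF2⟩ := force_of_not_Av n a b hA
    rw [hnδ] at hF2
    refine ⟨F, hF, fun c hc => ?_⟩
    obtain ⟨t, ht, ht2⟩ := hF2 c hc
    exact ⟨t, ht.trans le_self_add, ht2⟩

theorem lionWins_self (a : M) : LionWins a a :=
  ⟨fun _ _ => a, ⟨fun _ _ => isPath_const a, fun _ _ _ _ _ _ _ _ => rfl⟩,
    fun _ hc => ⟨0, hc.2.symm⟩⟩

theorem christianWins_of_avoids {K : Set (M × M)} (hd : ∀ a : M, (a, a) ∈ K) {x y : M}
    (h : Avoids K x y) : ChristianWins x y := by
  obtain ⟨G, hG, hG2⟩ := h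
  refine ⟨G, hG, fun l hl t he => hG2 l hl t ?_⟩
  rw [he]
  exact hd _

/-! ### geodesic spaces -/

open Classical in
/-- first the path `p` for the time `e`, then the path `f` -/
noncomputable def gl (e : ℝ≥0) (p f : ℝ≥0 → M) : ℝ≥0 → M := fun t => if t ≤ e then p t else f (t - e)

theorem isPath_gl {e : ℝ≥0} {x a : M} {p f : ℝ≥0 → M} (hp : IsPath x p) (he : p e = a)
    (hf : IsPath a f) : IsPath x (gl e p f) := by
  unfold gl
  refine ⟨lip_of fun s t hst => ?_, by
    show (if (0 : ℝ≥0) ≤ e then p 0 else f (0 - e)) = x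
    rw [if_pos zero_le]; exact hp.2⟩
  by_cases ht : t ≤ e
  · rw [if_pos ht, if_pos (hst.trans ht)]
    exact of_lip hp.1 hst
  · rw [if_neg ht]
    have ht' : e ≤ t := (not_le.1 ht).le
    by_cases hs : s ≤ e
    · rw [if_pos hs]
      have e1 := of_lip hp.1 hs
      have e2 := of_lip hf.1 (s := 0) (t := t - e) zero_le
      rw [he] at e1
      rw [hf.2, NNReal.coe_sub ht', NNReal.coe_zero] at e2
      have e3 := dist_triangle (p s) a (f (t - e))
      linarith
    · rw [if_neg hs]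
      have hs' : e ≤ s := (not_le.1 hs).le
      have e2 := of_lip hf.1 (s := s - e) (t := t - e) (tsub_le_tsub_right hst e)
      rw [NNReal.coe_sub ht', NNReal.coe_sub hs'] at e2
      linarith

theorem gl_add {e : ℝ≥0} {a : M} {p f : ℝ≥0 → M} (he : p e = a) (hf : IsPath a f) (t : ℝ≥0) :
    gl e p f (e + t) = f t := by
  unfold gl
  by_cases h0 : e + t ≤ e
  · have : t = 0 := by
      have h2 : (e : ℝ) + t ≤ e := by exact_mod_cast h0
      have h3 : (t : ℝ) ≤ 0 := by linarith
      exact le_antisymm (by exact_mod_cast h3) zero_le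
    rw [if_pos h0, this, add_zero, he, hf.2]
  · rw [if_neg h0, add_tsub_cancel_left]

omit [MetricSpace M] in
theorem gl_congr {e : ℝ≥0} {p f f' : ℝ≥0 → M} {t : ℝ≥0} (h : ∀ s, s ≤ t → f s = f' s) :
    ∀ s, s ≤ t → gl e p f s = gl e p f' s := by
  intro s hs
  unfold gl
  by_cases h0 : s ≤ e
  · rw [if_pos h0, if_pos h0]
  · rw [if_neg h0, if_neg h0]
    exact h _ (tsub_le_self.trans hs)

theorem near {e d T : ℝ≥0} {x y a b : M} (hx : Rch e x a) (hy : Rch d b y)
    (h : LionWinsBy T a b) : Force x y (fun t u v => t ≤ T + e ∧ dist u v ≤ e + d) := by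
  obtain ⟨p, hp, hpe⟩ := hx
  obtain ⟨q, hq, hqd⟩ := hy
  obtain ⟨F, hF, hF2⟩ := h
  have h1 : ∀ c, IsPath y c → IsPath b (gl d q c) := fun c hc => isPath_gl hq hqd hc
  refine ⟨fun c => gl e p (F (gl d q c)), ⟨?_, ?_⟩, ?_⟩
  · intro c hc
    exact isPath_gl hp hpe (hF.path _ (h1 c hc))
  · intro c c' hc hc' t ht
    exact gl_congr (hF.nolook _ _ (h1 c hc) (h1 c' hc') t (gl_congr ht))
  · intro c hc
    obtain ⟨t, ht, ht2⟩ := hF2 _ (h1 c hc)
    refine ⟨e + t, by rw [add_comm]; gcongr, ?_⟩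
    show dist (gl e p (F (gl d q c)) (e + t)) (c (e + t)) ≤ e + d
    rw [gl_add hpe (hF.path _ (h1 c hc)), ht2]
    have e1 := of_lip (h1 c hc).1 (s := t) (t := d + t) le_add_self
    rw [gl_add hqd hc] at e1
    have e2 := of_lip hc.1 (s := t) (t := e + t) le_add_self
    have e3 := dist_triangle (gl d q c t) (c t) (c (e + t))
    push_cast at e1 e2
    linarith

theorem closed_by [CompactSpace M] (hgeo : ∀ a b : M, Rch (nndist a b) a b) (T : ℝ≥0) :
    IsClosed {z : M × M | LionWinsBy T z.1 z.2} := by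
  apply isClosed_of_closure_subset
  rintro ⟨x, y⟩ hz
  have hD : IsClosed {z : M × M | z.1 = z.2} := isClosed_eq continuous_fst continuous_snd
  have := forceIn_limit (T := T) hD ⟨(x, x), rfl⟩ (x := x) (y := y) ?_
  · exact this
  intro m
  have hm : (0 : ℝ) < (m : ℝ) + 1 := by positivity
  obtain ⟨⟨a, b⟩, hab, hd⟩ := Metric.mem_closure_iff.1 hz (1 / (3 * ((m : ℝ) + 1)))
    (by positivity)
  rw [Prod.dist_eq, max_lt_iff] at hd
  have hr : 1 / (3 * ((m : ℝ) + 1)) = (1 / ((m : ℝ) + 1)) / 3 := by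
    rw [div_div]; congr 1; ring
  have h0 : 0 < 1 / ((m : ℝ) + 1) := by positivity
  rw [hr] at hd
  obtain ⟨F, hF, hF2⟩ := near (hgeo x a) (hgeo b y) hab
  refine ⟨F, hF, fun c hc => ?_⟩
  obtain ⟨t, ht, ht2⟩ := hF2 c hc
  have e1 : (nndist x a : ℝ) = dist x a := rfl
  have e2 : (nndist b y : ℝ) = dist b y := rfl
  have e3 := dist_comm b y
  have hd1 : dist x a < (1 / ((m : ℝ) + 1)) / 3 := hd.1
  have hd2 : dist y b < (1 / ((m : ℝ) + 1)) / 3 := hd.2
  refine ⟨t, ht.trans ?_, ?_⟩
  · gcongr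
    rw [← NNReal.coe_le_coe]
    push_cast
    linarith
  · show Metric.infDist (F c t, c t) {z : M × M | z.1 = z.2} < 1 / ((m : ℝ) + 1)
    have e4 := Metric.infDist_le_dist_of_mem (x := (F c t, c t))
      (show (c t, c t) ∈ {z : M × M | z.1 = z.2} from rfl)
    have e5 : dist (F c t, c t) (c t, c t) = dist (F c t) (c t) := by
      rw [Prod.dist_eq]; simp
    rw [e5] at e4
    have ht3 : dist (F c t) (c t) ≤ (nndist x a : ℝ) + nndist b y := ht2
    linarith

/-- The unbounded game on a compact metric space. (1) A certificate for the Christian: a closed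
set which the Lion cannot force from outside within a fixed time. (2) If the positions won by the
Lion form a closed set, then the game is determined from all positions. (3) Either the Christian
wins from all pairs of distinct points, or for each `τ > 0` the Lion catches him by the time `τ`
from some pair of distinct points. (4) If `M` is geodesic and there is a time by which the Lion
catches the Christian from all positions which he wins, then the game is determined from all
positions. (5) What a position won by nobody implies. -/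
theorem result (M : Type*) [MetricSpace M] [CompactSpace M] :
    (∀ (K : Set (M × M)), IsClosed K → (∀ a : M, (a, a) ∈ K) → ∀ τ : ℝ≥0, 0 < τ →
      (∀ a b : M, (a, b) ∉ K → ¬ ForceIn τ K a b) →
      ∀ x y : M, (x, y) ∉ K → Avoids K x y ∧ ChristianWins x y) ∧
    (IsClosed {z : M × M | LionWins z.1 z.2} → ∀ x y : M, LionWins x y ∨ ChristianWins x y) ∧
    ((∀ x y : M, x ≠ y → ChristianWins x y) ∨
      ∀ τ : ℝ≥0, 0 < τ → ∃ a b : M, a ≠ b ∧ LionWinsBy τ a b) ∧
    (Geodesic M → (∃ T : ℝ≥0, ∀ a b : M, LionWins a b → LionWinsBy T a b) →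
      ∀ x y : M, LionWins x y ∨ ChristianWins x y) ∧
    ((∃ x y : M, ¬ LionWins x y ∧ ¬ ChristianWins x y) →
      ¬ IsClosed {z : M × M | LionWins z.1 z.2} ∧
      (∀ τ : ℝ≥0, 0 < τ → ∃ a b : M, a ≠ b ∧ LionWinsBy τ a b) ∧
      (Geodesic M → ∀ T : ℝ≥0, ∃ a b : M, LionWins a b ∧ ¬ LionWinsBy T a b)) := by
  have h1 : ∀ (K : Set (M × M)), IsClosed K → (∀ a : M, (a, a) ∈ K) → ∀ τ : ℝ≥0, 0 < τ →
      (∀ a b : M, (a, b) ∉ K → ¬ ForceIn τ K a b) →
      ∀ x y : M, (x, y) ∉ K → Avoids K x y ∧ ChristianWins x y := by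
    intro K hK hd τ hτ h x y hxy
    have := main hτ hK ⟨(x, x), hd x⟩ h hxy
    exact ⟨this, christianWins_of_avoids hd this⟩
  have h2 : IsClosed {z : M × M | LionWins z.1 z.2} →
      ∀ x y : M, LionWins x y ∨ ChristianWins x y := by
    intro hcl x y
    by_cases hL : LionWins x y
    · exact Or.inl hL
    · refine Or.inr (h1 _ hcl (fun a => lionWins_self a) 1 one_pos ?_ x y hL).2
      intro a b hab hf
      exact hab (lionWins_of_forceIn hcl (fun z hz => hz) hf)
  have h3 : (∀ x y : M, x ≠ y → ChristianWins x y) ∨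
      ∀ τ : ℝ≥0, 0 < τ → ∃ a b : M, a ≠ b ∧ LionWinsBy τ a b := by
    by_cases h : ∀ τ : ℝ≥0, 0 < τ → ∃ a b : M, a ≠ b ∧ LionWinsBy τ a b
    · exact Or.inr h
    · left
      push Not at h
      obtain ⟨τ, hτ, hno⟩ := h
      intro x y hxy
      refine (h1 {z : M × M | z.1 = z.2} (isClosed_eq continuous_fst continuous_snd)
        (fun a => rfl) τ hτ ?_ x y hxy).2
      intro a b hab hf
      exact hno a b hab hf
  have h4 : Geodesic M → (∃ T : ℝ≥0, ∀ a b : M, LionWins a b → LionWinsBy T a b) →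
      ∀ x y : M, LionWins x y ∨ ChristianWins x y := by
    rintro hg ⟨T, hT⟩
    apply h2
    have : {z : M × M | LionWins z.1 z.2} = {z : M × M | LionWinsBy T z.1 z.2} := by
      ext z
      constructor
      · exact fun h => hT z.1 z.2 h
      · rintro ⟨F, hF, hF2⟩
        refine ⟨F, hF, fun c hc => ?_⟩
        obtain ⟨t, -, ht⟩ := hF2 c hc
        exact ⟨t, ht⟩
    rw [this]
    exact closed_by hg T
  refine ⟨h1, h2, h3, h4, ?_⟩
  rintro ⟨x, y, hL, hC⟩
  refine ⟨fun hcl => (h2 hcl x y).elim hL hC, h3.resolve_left fun h => hC (h x y ?_), ?_⟩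
  · rintro rfl
    exact hL (lionWins_self x)
  · intro hg T
    by_contra hno
    push Not at hno
    exact (h4 hg ⟨T, hno⟩ x y).elim hL hC

end Pool.Agent.Results.MP_fe87ae_co.ClosedWinningSet
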