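import Mathlib

set_option autoImplicit false

open scoped NNReal

namespace Pool.Agent.Results.MP_fe87ae_co.PursuitValue

variable {M : Type*} [MetricSpace M]

/-- `f` is a path of speed at most one which starts at `x`. -/
def IsPath (x : M) (f : ℝ≥0 → M) : Prop := LipschitzWith 1 f ∧ f 0 = x

/-- `F` is a strategy without lookahead for a player who starts at `x`, against an opponent who
starts at `y`: it answers every path of the opponent by a path from `x`, and if two paths of the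
opponent agree up to time `t`, then so do the answers. -/
structure IsStrategy (x y : M) (F : (ℝ≥0 → M) → (ℝ≥0 → M)) : Prop where
  path : ∀ c, IsPath y c → IsPath x (F c)
  nolook : ∀ c c', IsPath y c → IsPath y c' → ∀ t, (∀ s, s ≤ t → c s = c' s) →
    ∀ s, s ≤ t → F c s = F c' s

/-- The Lion, starting at `x`, has a strategy which forces `D t (Lion's place) (Christian's place)`
at some time `t`, whatever the Christian, starting at `y`, does. -/
def Force (x y : M) (D : ℝ≥0 → M → M → Prop) : Prop :=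
  ∃ F, IsStrategy x y F ∧ ∀ c, IsPath y c → ∃ t, D t (F c t) (c t)

/-- The Lion has a winning strategy in the game of unbounded time. -/
def LionWins (x y : M) : Prop := Force x y (fun _ a b => a = b)

/-- The Christian has a winning strategy in the game of unbounded time. -/
def ChristianWins (x y : M) : Prop :=
  ∃ G, IsStrategy y x G ∧ ∀ l, IsPath x l → ∀ t, G l t ≠ l t

/-- The Christian has a strategy which keeps the distance at least `η` at all times. -/
def KeepsAway (η : ℝ) (x y : M) : Prop :=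
  ∃ G, IsStrategy y x G ∧ ∀ l, IsPath x l → ∀ t, η ≤ dist (l t) (G l t)

/-! ### paths -/

theorem lip_of {f : ℝ≥0 → M} (h : ∀ s t : ℝ≥0, s ≤ t → dist (f s) (f t) ≤ (t : ℝ) - s) :
    LipschitzWith 1 f := by
  apply LipschitzWith.of_dist_le_mul
  intro s t
  rw [NNReal.coe_one, one_mul, NNReal.dist_eq]
  rcases le_total s t with hst | hst
  · have h1 := h s t hst
    rw [abs_sub_comm, abs_of_nonneg (sub_nonneg.2 (NNReal.coe_le_coe.2 hst))]; exact h1
  · have h1 := h t s hst
    rw [dist_comm, abs_of_nonneg (sub_nonneg.2 (NNReal.coe_le_coe.2 hst))]; exact h1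

theorem of_lip {f : ℝ≥0 → M} (h : LipschitzWith 1 f) {s t : ℝ≥0} (hst : s ≤ t) :
    dist (f s) (f t) ≤ (t : ℝ) - s := by
  have h1 := h.dist_le_mul s t
  rw [NNReal.coe_one, one_mul, NNReal.dist_eq, abs_sub_comm,
    abs_of_nonneg (sub_nonneg.2 (NNReal.coe_le_coe.2 hst))] at h1
  exact h1

theorem isPath_const (x : M) : IsPath x (fun _ => x) := by
  refine ⟨lip_of fun s t h => ?_, rfl⟩
  rw [dist_self]
  exact sub_nonneg.2 (NNReal.coe_le_coe.2 h)

theorem isPath_shift {y : M} {c : ℝ≥0 → M} (h : IsPath y c) (δ : ℝ≥0) :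
    IsPath (c δ) (fun s => c (δ + s)) := by
  refine ⟨lip_of fun s t hst => ?_, by simp⟩
  have := of_lip h.1 (s := δ + s) (t := δ + t) (by gcongr)
  push_cast at this
  linarith

/-- the place `x'` can be reached from `x` in time `δ` -/
def Rch (δ : ℝ≥0) (x x' : M) : Prop := ∃ p, IsPath x p ∧ p δ = x'

/-! ### one step of the Lion -/

theorem force_step {δ : ℝ≥0} {x y x' : M} {D : ℝ≥0 → M → M → Prop} (hx : Rch δ x x')
    (h : ∀ y', Rch δ y y' → Force x' y' (fun t a b => D (δ + t) a b)) : Force x y D := by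
  classical
  obtain ⟨p, hp, hpx⟩ := hx
  have h1 : ∀ y' : M, ∃ F : (ℝ≥0 → M) → (ℝ≥0 → M), Rch δ y y' → IsStrategy x' y' F ∧
      ∀ c, IsPath y' c → ∃ t, D (δ + t) (F c t) (c t) := by
    intro y'
    by_cases hy : Rch δ y y'
    · obtain ⟨F, hF⟩ := h y' hy
      exact ⟨F, fun _ => hF⟩
    · exact ⟨fun c => c, fun h => absurd h hy⟩
  choose S hS using h1
  have hR : ∀ c, IsPath y c → Rch δ y (c δ) := fun c hc => ⟨c, hc, rfl⟩
  refine ⟨fun c t => if t ≤ δ then p t else S (c δ) (fun s => c (δ + s)) (t - δ), ⟨?_, ?_⟩, ?_⟩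
  · intro c hc
    have hq := ((hS (c δ) (hR c hc)).1).path _ (isPath_shift hc δ)
    set q := S (c δ) (fun s => c (δ + s)) with hqd
    refine ⟨lip_of fun s t hst => ?_, ?_⟩
    · by_cases ht : t ≤ δ
      · rw [if_pos ht, if_pos (hst.trans ht)]
        exact of_lip hp.1 hst
      · rw [if_neg ht]
        have ht' : δ ≤ t := (not_le.1 ht).le
        by_cases hs : s ≤ δ
        · rw [if_pos hs]
          have e1 := of_lip hp.1 hs
          have e2 := of_lip hq.1 (s := 0) (t := t - δ) zero_le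
          rw [hpx] at e1
          rw [hq.2, NNReal.coe_sub ht', NNReal.coe_zero] at e2
          have e3 := dist_triangle (p s) x' (q (t - δ))
          linarith
        · rw [if_neg hs]
          have hs' : δ ≤ s := (not_le.1 hs).le
          have e2 := of_lip hq.1 (s := s - δ) (t := t - δ) (tsub_le_tsub_right hst δ)
          rw [NNReal.coe_sub ht', NNReal.coe_sub hs'] at e2
          linarith
    · show (if (0 : ℝ≥0) ≤ δ then p 0 else q (0 - δ)) = x
      rw [if_pos zero_le]
      exact hp.2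
  · intro c c' hc hc' t ht s hs
    by_cases hsd : s ≤ δ
    · simp only [if_pos hsd]
    · simp only [if_neg hsd]
      have hsd' : δ ≤ s := (not_le.1 hsd).le
      have e1 : c δ = c' δ := ht δ (hsd'.trans hs)
      rw [← e1]
      refine ((hS (c δ) (hR c hc)).1).nolook _ _ (isPath_shift hc δ) ?_ (t - δ) ?_ (s - δ)
        (tsub_le_tsub_right hs δ)
      · rw [e1]; exact isPath_shift hc' δ
      · intro r hr
        apply ht
        have hdt : δ ≤ t := hsd'.trans hs
        calc δ + r ≤ δ + (t - δ) := by gcongr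
          _ = t := add_tsub_cancel_of_le hdt
  · intro c hc
    obtain ⟨t, ht⟩ := (hS (c δ) (hR c hc)).2 _ (isPath_shift hc δ)
    refine ⟨δ + t, ?_⟩
    have hq := ((hS (c δ) (hR c hc)).1).path _ (isPath_shift hc δ)
    have e : (if δ + t ≤ δ then p (δ + t) else
        S (c δ) (fun s => c (δ + s)) (δ + t - δ)) = S (c δ) (fun s => c (δ + s)) t := by
      by_cases h0 : δ + t ≤ δ
      · have : t = 0 := by
          have h2 : (δ : ℝ) + t ≤ δ := by exact_mod_cast h0
          have h3 : (t : ℝ) ≤ 0 := by linarith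
          exact le_antisymm (by exact_mod_cast h3) zero_le
        rw [if_pos h0, this, add_zero, hpx, hq.2]
      · rw [if_neg h0, add_tsub_cancel_left]
    show D (δ + t) (if δ + t ≤ δ then p (δ + t) else
        S (c δ) (fun s => c (δ + s)) (δ + t - δ)) (c (δ + t))
    rw [e]
    exact ht

/-! ### infinitely many segments -/

/-- the concatenation of the paths `seg 0`, `seg 1`, ..., each used for the time `δ` -/
noncomputable def join (δ : ℝ≥0) (seg : ℕ → ℝ≥0 → M) : ℝ≥0 → M :=
  fun t => seg ⌊t / δ⌋₊ (t - ⌊t / δ⌋₊ * δ)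

theorem exists_rep {δ : ℝ≥0} (hδ : 0 < δ) (t : ℝ≥0) :
    ⌊t / δ⌋₊ * δ ≤ t ∧ t - ⌊t / δ⌋₊ * δ < δ := by
  have h1 : (⌊t / δ⌋₊ : ℝ≥0) ≤ t / δ := Nat.floor_le zero_le
  have h2 : t / δ < ⌊t / δ⌋₊ + 1 := Nat.lt_floor_add_one _
  have h3 : ⌊t / δ⌋₊ * δ ≤ t := by
    calc (⌊t / δ⌋₊ : ℝ≥0) * δ ≤ t / δ * δ := by gcongr
      _ = t := div_mul_cancel₀ t hδ.ne'
  refine ⟨h3, ?_⟩
  rw [div_lt_iff₀ hδ] at h2
  have h4 : (t : ℝ) < (⌊t / δ⌋₊ + 1) * δ := by exact_mod_cast h2
  rw [← NNReal.coe_lt_coe, NNReal.coe_sub h3]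
  push_cast
  linarith

omit [MetricSpace M] in
theorem join_eq {δ : ℝ≥0} (hδ : 0 < δ) (seg : ℕ → ℝ≥0 → M) (k : ℕ) {r : ℝ≥0} (hr : r < δ) :
    join δ seg (k * δ + r) = seg k r := by
  have h1 : ⌊(k * δ + r) / δ⌋₊ = k := by
    rw [Nat.floor_eq_iff zero_le]
    constructor
    · rw [le_div_iff₀ hδ]; exact le_self_add
    · rw [div_lt_iff₀ hδ, add_mul, one_mul]; gcongr
  unfold join
  rw [h1, add_tsub_cancel_left]

theorem join_lip {δ : ℝ≥0} (hδ : 0 < δ) {seg : ℕ → ℝ≥0 → M} (hs : ∀ k, LipschitzWith 1 (seg k))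
    (hj : ∀ k, seg k δ = seg (k + 1) 0) : LipschitzWith 1 (join δ seg) := by
  have key : ∀ n : ℕ, ∀ a : ℕ, ∀ r r' : ℝ≥0, r < δ → r' < δ →
      (a * δ + r : ℝ≥0) ≤ ((a + n : ℕ) : ℝ≥0) * δ + r' →
      dist (join δ seg (a * δ + r)) (join δ seg (((a + n : ℕ) : ℝ≥0) * δ + r')) ≤
        ((a + n : ℕ) : ℝ) * δ + r' - (a * δ + r) := by
    intro n
    induction n with
    | zero =>
      intro a r r' hr hr' h
      rw [join_eq hδ seg a hr, join_eq hδ seg (a + 0) hr']
      simp only [add_zero] at h ⊢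
      have h1 : r ≤ r' := le_of_add_le_add_left h
      have := of_lip (hs a) h1
      linarith
    | succ n ih =>
      intro a r r' hr hr' h
      have e1 : join δ seg (((a + 1 : ℕ) : ℝ≥0) * δ + 0) = seg a δ := by
        rw [join_eq hδ seg (a + 1) hδ, hj]
      have e2 := ih (a + 1) 0 r' hδ hr' (by
        have : a + 1 + n = a + (n + 1) := by ring
        rw [this, add_zero]
        calc ((a + 1 : ℕ) : ℝ≥0) * δ ≤ ((a + (n + 1) : ℕ) : ℝ≥0) * δ := by
              gcongr; omega
          _ ≤ _ := le_self_add)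
      have e3 : a + 1 + n = a + (n + 1) := by ring
      rw [e3, e1] at e2
      rw [join_eq hδ seg a hr]
      have e4 := of_lip (hs a) hr.le
      have e5 := dist_triangle (seg a r) (seg a δ)
        (join δ seg (((a + (n + 1) : ℕ) : ℝ≥0) * δ + r'))
      push_cast at e2 e4 e5 ⊢
      linarith
  apply lip_of
  intro s t hst
  obtain ⟨h1, h2⟩ := exists_rep hδ s
  obtain ⟨h3, h4⟩ := exists_rep hδ t
  set a := ⌊s / δ⌋₊ with ha
  set b := ⌊t / δ⌋₊ with hb
  have hab : a ≤ b := by
    rw [ha, hb]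
    exact Nat.floor_le_floor (by gcongr)
  obtain ⟨n, hn⟩ := Nat.exists_eq_add_of_le hab
  have e1 : (a : ℝ≥0) * δ + (s - a * δ) = s := add_tsub_cancel_of_le h1
  have e2 : ((a + n : ℕ) : ℝ≥0) * δ + (t - b * δ) = t := by
    rw [← hn]; exact add_tsub_cancel_of_le h3
  have := key n a (s - a * δ) (t - b * δ) h2 h4 (by rw [e1, e2]; exact hst)
  rw [e1, e2] at this
  have e3 : ((a + n : ℕ) : ℝ) * δ + ((t - b * δ : ℝ≥0) : ℝ) = t := by exact_mod_cast e2
  have e4 : (a : ℝ) * δ + ((s - a * δ : ℝ≥0) : ℝ) = s := by exact_mod_cast e1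
  rw [e3, e4] at this
  exact this

/-! ### the Christian -/

/-- the places of the Christian who uses the rule `step` against `l` -/
def places (δ : ℝ≥0) (step : M → M → M → (ℝ≥0 → M)) (y : M) (l : ℝ≥0 → M) : ℕ → M
  | 0 => y
  | k + 1 => step (l (k * δ)) (places δ step y l k) (l (((k + 1 : ℕ) : ℝ≥0) * δ)) δ

/-- the segments of the Christian who uses the rule `step` against `l` with the delay `δ` -/
def segs (δ : ℝ≥0) (step : M → M → M → (ℝ≥0 → M)) (y : M) (l : ℝ≥0 → M) : ℕ → ℝ≥0 → M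
  | 0 => fun _ => y
  | k + 1 => step (l (k * δ)) (places δ step y l k) (l (((k + 1 : ℕ) : ℝ≥0) * δ))

theorem keeps_of {δ : ℝ≥0} (hδ : 0 < δ) {ε η : ℝ} (h3 : 3 * (δ : ℝ) ≤ ε - η) {x0 y0 : M}
    (W : M → M → Prop) (h0 : W x0 y0)
    (hW : ∀ x y, W x y → ε ≤ dist x y ∧ ∀ x', Rch δ x x' → ∃ y', Rch δ y y' ∧ W x' y') :
    KeepsAway η x0 y0 := by
  classical
  have h1 : ∀ x y x' : M, ∃ q : ℝ≥0 → M, W x y → Rch δ x x' → IsPath y q ∧ W x' (q δ) := by
    intro x y x'
    by_cases h : W x y ∧ Rch δ x x'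
    · obtain ⟨y', ⟨q, hq, hqy⟩, hw⟩ := (hW x y h.1).2 x' h.2
      exact ⟨q, fun _ _ => ⟨hq, by rw [hqy]; exact hw⟩⟩
    · exact ⟨fun _ => y, fun a b => absurd ⟨a, b⟩ h⟩
  choose step hstep using h1
  have hR : ∀ (l : ℝ≥0 → M), IsPath x0 l → ∀ k : ℕ,
      Rch δ (l (k * δ)) (l (((k + 1 : ℕ) : ℝ≥0) * δ)) := by
    intro l hl k
    refine ⟨fun s => l (k * δ + s), isPath_shift hl _, ?_⟩
    show l (k * δ + δ) = _
    congr 1
    push_cast
    ring
  have hP : ∀ (l : ℝ≥0 → M), IsPath x0 l → ∀ k : ℕ,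
      W (l (k * δ)) (places δ step y0 l k) := by
    intro l hl k
    induction k with
    | zero =>
      have : l (((0 : ℕ) : ℝ≥0) * δ) = x0 := by rw [Nat.cast_zero, zero_mul]; exact hl.2
      rw [this]; exact h0
    | succ k ih => exact (hstep _ _ _ ih (hR l hl k)).2
  have hS : ∀ (l : ℝ≥0 → M), IsPath x0 l → ∀ k : ℕ,
      IsPath (places δ step y0 l k) (segs δ step y0 l (k + 1)) := fun l hl k =>
    (hstep _ _ _ (hP l hl k) (hR l hl k)).1
  have hSl : ∀ (l : ℝ≥0 → M), IsPath x0 l → ∀ k : ℕ, LipschitzWith 1 (segs δ step y0 l k) := by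
    intro l hl k
    cases k with
    | zero => exact (isPath_const y0).1
    | succ k => exact (hS l hl k).1
  have hJ : ∀ (l : ℝ≥0 → M), IsPath x0 l → ∀ k : ℕ,
      segs δ step y0 l k δ = segs δ step y0 l (k + 1) 0 := by
    intro l hl k
    rw [(hS l hl k).2]
    cases k with
    | zero => rfl
    | succ k => rfl
  refine ⟨fun l => join δ (segs δ step y0 l), ⟨?_, ?_⟩, ?_⟩
  · intro l hl
    refine ⟨join_lip hδ (hSl l hl) (hJ l hl), ?_⟩
    have := join_eq hδ (segs δ step y0 l) 0 hδ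
    rw [Nat.cast_zero, zero_mul, zero_add] at this
    rw [this]; rfl
  · intro l l' hl hl' t ht s hs
    have hle : ∀ k : ℕ, (k : ℝ≥0) * δ ≤ t → places δ step y0 l k = places δ step y0 l' k := by
      intro k
      induction k with
      | zero => intro _; rfl
      | succ k ih =>
        intro hk
        have hk' : (k : ℝ≥0) * δ ≤ t := le_trans (by gcongr; omega) hk
        show step _ _ _ δ = step _ _ _ δ
        rw [ih hk', ht _ hk', ht _ hk]
    obtain ⟨h1, h2⟩ := exists_rep hδ s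
    show join δ (segs δ step y0 l) s = join δ (segs δ step y0 l') s
    unfold join
    have h4 : segs δ step y0 l ⌊s / δ⌋₊ = segs δ step y0 l' ⌊s / δ⌋₊ := by
      generalize ⌊s / δ⌋₊ = k at h1
      cases k with
      | zero => rfl
      | succ k =>
        have hk : (((k + 1 : ℕ) : ℝ≥0)) * δ ≤ t := h1.trans hs
        have hk' : (k : ℝ≥0) * δ ≤ t := le_trans (by gcongr; omega) hk
        show step _ _ _ = step _ _ _
        rw [hle k hk', ht _ hk', ht _ hk]
    rw [h4]
  · intro l hl t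
    obtain ⟨h1, h2⟩ := exists_rep hδ t
    show η ≤ dist (l t) (segs δ step y0 l ⌊t / δ⌋₊ (t - ⌊t / δ⌋₊ * δ))
    generalize ⌊t / δ⌋₊ = k at h1 h2
    have hd : (0 : ℝ) < δ := by exact_mod_cast hδ
    cases k with
    | zero =>
      show η ≤ dist (l t) y0
      rw [Nat.cast_zero, zero_mul, tsub_zero] at h2
      have e1 := of_lip hl.1 (s := 0) (t := t) zero_le
      rw [hl.2, NNReal.coe_zero] at e1
      have e2 := dist_triangle x0 (l t) y0
      have e3 := (hW _ _ h0).1
      have e4 : (t : ℝ) < δ := by exact_mod_cast h2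
      linarith
    | succ k =>
      have hk : (k : ℝ≥0) * δ ≤ t := le_trans (by gcongr; omega) h1
      have e1 := of_lip hl.1 hk
      have e2 := of_lip (hS l hl k).1 (s := 0) (t := t - (((k + 1 : ℕ) : ℝ≥0)) * δ) zero_le
      rw [(hS l hl k).2] at e2
      have e3 := (hW _ _ (hP l hl k)).1
      have e4 : (((t - (((k + 1 : ℕ) : ℝ≥0)) * δ : ℝ≥0)) : ℝ) < δ := by exact_mod_cast h2
      rw [NNReal.coe_zero] at e2
      have e5 : (t : ℝ) - ((k : ℝ) + 1) * δ < δ := by
        rw [NNReal.coe_sub h1] at e4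
        push_cast at e4
        exact e4
      have e6 := dist_triangle4 (l (k * δ)) (l t)
        (segs δ step y0 l (k + 1) (t - (((k + 1 : ℕ) : ℝ≥0)) * δ)) (places δ step y0 l k)
      have e7 := dist_comm (places δ step y0 l k)
        (segs δ step y0 l (k + 1) (t - (((k + 1 : ℕ) : ℝ≥0)) * δ))
      push_cast at e1 e5
      linarith

/-! ### the general dichotomy -/

/-- the positions from which a Lion who moves first in each step of length `δ` can force `K` -/
inductive Lw (δ : ℝ≥0) (K : M → M → Prop) : M → M → Prop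
  | base (x y : M) : K x y → Lw δ K x y
  | step (x y x' : M) : Rch δ x x' → (∀ y', Rch δ y y' → Lw δ K x' y') → Lw δ K x y

theorem force_of_Lw {δ : ℝ≥0} {K : M → M → Prop} {D : M → M → Prop}
    (hK : ∀ x y, K x y → Force x y (fun _ a b => D a b)) {x y : M} (h : Lw δ K x y) :
    Force x y (fun _ a b => D a b) := by
  induction h with
  | base x y h => exact hK x y h
  | step x y x' hx _ ih => exact force_step hx ih

theorem dichotomy {ε η : ℝ} (hη : η < ε) (K : M → M → Prop) (D : M → M → Prop)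
    (hK : ∀ x y, K x y → Force x y (fun _ a b => D a b)) (hε : ∀ x y, dist x y < ε → K x y)
    (x y : M) : Force x y (fun _ a b => D a b) ∨ KeepsAway η x y := by
  set δ : ℝ≥0 := ((ε - η) / 3).toNNReal with hδd
  have hc : (δ : ℝ) = (ε - η) / 3 := Real.coe_toNNReal _ (by linarith)
  have hδ : 0 < δ := by
    rw [← NNReal.coe_pos, hc]; linarith
  by_cases h : Lw δ K x y
  · exact Or.inl (force_of_Lw hK h)
  · refine Or.inr (keeps_of hδ (ε := ε) (by rw [hc]; linarith) (fun a b => ¬ Lw δ K a b) h ?_)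
    intro a b hab
    refine ⟨?_, ?_⟩
    · by_contra hlt
      exact hab (Lw.base a b (hε a b (not_le.1 hlt)))
    · intro a' ha'
      by_contra hno
      push Not at hno
      exact hab (Lw.step a b a' ha' hno)

/-! ### the compact case -/

/-- the Christian, who sees each step of the Lion in advance, can keep the distance at least `ε`
for `n` steps of length `δ` -/
def Av (δ : ℝ≥0) (ε : ℝ) : ℕ → M → M → Prop
  | 0 => fun x y => ε ≤ dist x y
  | n + 1 => fun x y => ε ≤ dist x y ∧ ∀ x', Rch δ x x' → ∃ y', Rch δ y y' ∧ Av δ ε n x' y'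

theorem Av_mono {δ : ℝ≥0} {ε : ℝ} (n : ℕ) : ∀ x y : M, Av δ ε (n + 1) x y → Av δ ε n x y := by
  induction n with
  | zero => exact fun x y h => h.1
  | succ n ih =>
    intro x y h
    refine ⟨h.1, fun x' hx' => ?_⟩
    obtain ⟨y', h1, h2⟩ := h.2 x' hx'
    exact ⟨y', h1, ih x' y' h2⟩

theorem Rch_compact [CompactSpace M] (δ : ℝ≥0) : IsCompact {z : M × M | Rch δ z.1 z.2} := by
  have h1 : IsClosed {p : ℝ≥0 → M | LipschitzWith 1 p} := by
    have : {p : ℝ≥0 → M | LipschitzWith 1 p} =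
        ⋂ s : ℝ≥0, ⋂ t : ℝ≥0, {p : ℝ≥0 → M | dist (p s) (p t) ≤ dist s t} := by
      ext p
      simp only [Set.mem_ofPred_eq, Set.mem_iInter]
      constructor
      · intro h s t
        have := h.dist_le_mul s t
        rwa [NNReal.coe_one, one_mul] at this
      · intro h
        apply LipschitzWith.of_dist_le_mul
        intro s t
        rw [NNReal.coe_one, one_mul]
        exact h s t
    rw [this]
    refine isClosed_iInter fun s => isClosed_iInter fun t => ?_
    exact isClosed_le ((continuous_apply s).dist (continuous_apply t)) continuous_const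
  have h2 : {z : M × M | Rch δ z.1 z.2} =
      (fun p : ℝ≥0 → M => (p 0, p δ)) '' {p : ℝ≥0 → M | LipschitzWith 1 p} := by
    ext z
    constructor
    · rintro ⟨p, hp, hz⟩
      exact ⟨p, hp.1, Prod.ext hp.2 hz⟩
    · rintro ⟨p, hp, rfl⟩
      exact ⟨p, ⟨hp, rfl⟩, rfl⟩
  rw [h2]
  exact h1.isCompact.image ((continuous_apply 0).prodMk (continuous_apply δ))

theorem Av_closed [CompactSpace M] {δ : ℝ≥0} {ε : ℝ} (n : ℕ) :
    ∀ x : M, IsClosed {y : M | Av δ ε n x y} := by
  induction n with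
  | zero =>
    intro x
    exact isClosed_le continuous_const (continuous_const.dist continuous_id)
  | succ n ih =>
    intro x
    have h1 : {y : M | Av δ ε (n + 1) x y} = {y | ε ≤ dist x y} ∩
        ⋂ x' : M, ⋂ _ : Rch δ x x', Prod.fst ''
          ({z : M × M | Rch δ z.1 z.2} ∩ {z : M × M | Av δ ε n x' z.2}) := by
      ext y
      constructor
      · rintro ⟨h1, h2⟩
        refine ⟨h1, ?_⟩
        simp only [Set.mem_iInter]
        intro x' hx'
        obtain ⟨y', h3, h4⟩ := h2 x' hx'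
        exact ⟨(y, y'), ⟨h3, h4⟩, rfl⟩
      · rintro ⟨h1, h2⟩
        refine ⟨h1, fun x' hx' => ?_⟩
        simp only [Set.mem_iInter] at h2
        obtain ⟨⟨a, b⟩, ⟨h3, h4⟩, h5⟩ := h2 x' hx'
        simp only at h5
        subst h5
        exact ⟨b, h3, h4⟩
    rw [h1]
    refine (isClosed_le continuous_const (continuous_const.dist continuous_id)).inter ?_
    refine isClosed_iInter fun x' => isClosed_iInter fun _ => ?_
    exact (((Rch_compact δ).inter_right ((ih x').preimage continuous_snd)).image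
      continuous_fst).isClosed

theorem Av_all [CompactSpace M] {δ : ℝ≥0} {ε : ℝ} {x y x' : M} (h : ∀ n, Av δ ε n x y)
    (hx : Rch δ x x') : ∃ y', Rch δ y y' ∧ ∀ n, Av δ ε n x' y' := by
  have hcl : IsClosed {y' : M | Rch δ y y'} :=
    (Rch_compact δ).isClosed.preimage (Continuous.prodMk_right y)
  obtain ⟨y', hy'⟩ := IsCompact.nonempty_iInter_of_sequence_nonempty_isCompact_isClosed
    (fun n => {y' : M | Rch δ y y'} ∩ {y' : M | Av δ ε n x' y'})
    (fun n z hz => ⟨hz.1, Av_mono n x' z hz.2⟩)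
    (fun n => by
      obtain ⟨z, hz1, hz2⟩ := (h (n + 1)).2 x' hx
      exact ⟨z, hz1, hz2⟩)
    (hcl.inter (Av_closed 0 x')).isCompact
    (fun n => hcl.inter (Av_closed n x'))
  rw [Set.mem_iInter] at hy'
  exact ⟨y', (hy' 0).1, fun n => (hy' n).2⟩

theorem force_of_not_Av {δ : ℝ≥0} {ε : ℝ} (n : ℕ) : ∀ x y : M, ¬ Av δ ε n x y →
    Force x y (fun t a b => t ≤ n * δ ∧ dist a b < ε) := by
  have hbase : ∀ (n : ℕ) (x y : M), dist x y < ε →
      Force x y (fun t a b => t ≤ n * δ ∧ dist a b < ε) := by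
    intro n x y h
    refine ⟨fun _ _ => x, ⟨fun _ _ => isPath_const x, fun _ _ _ _ _ _ _ _ => rfl⟩, fun c hc => ?_⟩
    exact ⟨0, zero_le, by rw [hc.2]; exact h⟩
  induction n with
  | zero =>
    intro x y h
    exact hbase 0 x y (not_le.1 h)
  | succ n ih =>
    intro x y h
    by_cases hd : ε ≤ dist x y
    · have h1 : ∃ x', Rch δ x x' ∧ ∀ y', Rch δ y y' → ¬ Av δ ε n x' y' := by
        by_contra hno
        push Not at hno
        exact h ⟨hd, hno⟩
      obtain ⟨x', hx', h2⟩ := h1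
      apply force_step hx'
      intro y' hy'
      obtain ⟨F, hF, hF2⟩ := ih x' y' (h2 y' hy')
      refine ⟨F, hF, fun c hc => ?_⟩
      obtain ⟨t, ht, ht2⟩ := hF2 c hc
      refine ⟨t, ?_, ht2⟩
      calc δ + t ≤ δ + n * δ := by gcongr
        _ = ((n + 1 : ℕ) : ℝ≥0) * δ := by push_cast; ring
    · exact hbase _ x y (not_le.1 hd)

theorem dichotomy_compact [CompactSpace M] {ε η : ℝ} (hη : η < ε) (x y : M) :
    (∃ T : ℝ≥0, Force x y (fun t a b => t ≤ T ∧ dist a b < ε)) ∨ KeepsAway η x y := by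
  set δ : ℝ≥0 := ((ε - η) / 3).toNNReal with hδd
  have hc : (δ : ℝ) = (ε - η) / 3 := Real.coe_toNNReal _ (by linarith)
  have hδ : 0 < δ := by
    rw [← NNReal.coe_pos, hc]; linarith
  by_cases h : ∀ n, Av δ ε n x y
  · refine Or.inr (keeps_of hδ (ε := ε) (by rw [hc]; linarith)
      (fun a b => ∀ n, Av δ ε n a b) h ?_)
    intro a b hab
    exact ⟨hab 0, fun a' ha' => Av_all hab ha'⟩
  · push Not at h
    obtain ⟨n, hn⟩ := h
    exact Or.inl ⟨n * δ, force_of_not_Av n x y hn⟩

/-! ### the two alternatives exclude each other -/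

theorem exclusive {ε ε' : ℝ} (h : ε' < ε) {x y : M} (hC : KeepsAway ε x y) :
    ¬ Force x y (fun _ a b => dist a b < ε') := by
  rintro ⟨F, hF, hF2⟩
  obtain ⟨G, hG, hG2⟩ := hC
  set δ : ℝ≥0 := ((ε - ε') / 2).toNNReal with hδd
  have hc : (δ : ℝ) = (ε - ε') / 2 := Real.coe_toNNReal _ (by linarith)
  have hδ : 0 < δ := by
    rw [← NNReal.coe_pos, hc]; linarith
  -- the Lion's strategy with the delay `δ`
  have hFd : ∀ c, IsPath y c → IsPath x (fun t => F c (t - δ)) := by
    intro c hc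
    refine ⟨lip_of fun s t hst => ?_, by
      show F c (0 - δ) = x
      rw [zero_tsub]; exact (hF.path c hc).2⟩
    have e1 := of_lip (hF.path c hc).1 (s := s - δ) (t := t - δ) (tsub_le_tsub_right hst δ)
    refine e1.trans ?_
    rcases le_total s δ with a | a
    · rw [tsub_eq_zero_of_le a, NNReal.coe_zero, sub_zero]
      rcases le_total t δ with b | b
      · rw [tsub_eq_zero_of_le b, NNReal.coe_zero]
        exact sub_nonneg.2 (NNReal.coe_le_coe.2 hst)
      · rw [NNReal.coe_sub b]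
        have : (s : ℝ) ≤ δ := NNReal.coe_le_coe.2 a
        linarith
    · rw [NNReal.coe_sub a, NNReal.coe_sub (a.trans hst)]
      linarith
  have hcau : ∀ c c', IsPath y c → IsPath y c' → ∀ t, (∀ s, s + δ ≤ t → c s = c' s) →
      c 0 = c' 0 → ∀ s, s ≤ t → F c (s - δ) = F c' (s - δ) := by
    intro c c' hc hc' t ht h0 s hs
    refine hF.nolook c c' hc hc' (s - δ) (fun r hr => ?_) _ le_rfl
    rcases le_total s δ with a | a
    · rw [tsub_eq_zero_of_le a] at hr
      have : r = 0 := le_antisymm hr zero_le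
      rw [this]; exact h0
    · apply ht
      calc r + δ ≤ (s - δ) + δ := by gcongr
        _ = s := tsub_add_cancel_of_le a
        _ ≤ t := hs
  let g : ℕ → ℝ≥0 → M := fun k => Nat.rec (fun _ => y) (fun _ c => G (fun t => F c (t - δ))) k
  have g0 : g 0 = fun _ => y := rfl
  have gs : ∀ k, g (k + 1) = G (fun t => F (g k) (t - δ)) := fun k => rfl
  have gp : ∀ k, IsPath y (g k) := by
    intro k
    induction k with
    | zero => exact isPath_const y
    | succ k ih => rw [gs]; exact hG.path _ (hFd _ ih)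
  have hag : ∀ k : ℕ, ∀ s : ℝ≥0, s ≤ k * δ → g (k + 1) s = g k s := by
    intro k
    induction k with
    | zero =>
      intro s hs
      rw [Nat.cast_zero, zero_mul] at hs
      have : s = 0 := le_antisymm hs zero_le
      rw [this, (gp (0 + 1)).2, (gp 0).2]
    | succ k ih =>
      intro s hs
      rw [gs (k + 1), gs k]
      refine hG.nolook _ _ (hFd _ (gp (k + 1))) (hFd _ (gp k)) (((k + 1 : ℕ) : ℝ≥0) * δ) ?_ s hs
      refine hcau _ _ (gp (k + 1)) (gp k) _ (fun r hr => ih r ?_) ?_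
      · have e : r + δ ≤ k * δ + δ := by
          refine hr.trans (le_of_eq ?_)
          push_cast; ring
        exact le_of_add_le_add_right e
      · rw [(gp (k + 1)).2, (gp k).2]
  have hag2 : ∀ k m : ℕ, k ≤ m → ∀ s : ℝ≥0, s ≤ k * δ → g m s = g k s := by
    intro k m hkm
    induction m, hkm using Nat.le_induction with
    | base => intro s _; rfl
    | succ m hm ih =>
      intro s hs
      rw [hag m s (hs.trans (by gcongr)), ih s hs]
  have hN : ∀ s : ℝ≥0, s ≤ ⌈s / δ⌉₊ * δ := by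
    intro s
    have h1 : s / δ ≤ ⌈s / δ⌉₊ := Nat.le_ceil _
    calc s = s / δ * δ := (div_mul_cancel₀ s hδ.ne').symm
      _ ≤ _ := by gcongr
  have hgl : ∀ k : ℕ, ∀ s : ℝ≥0, s ≤ k * δ → g ⌈s / δ⌉₊ s = g k s := by
    intro k s hs
    rcases le_total k ⌈s / δ⌉₊ with a | a
    · exact hag2 k _ a s hs
    · exact (hag2 _ k a s (hN s)).symm
  have hpath : IsPath y (fun s => g ⌈s / δ⌉₊ s) := by
    refine ⟨lip_of fun s t hst => ?_, (gp _).2⟩
    have e1 : g ⌈s / δ⌉₊ s = g ⌈t / δ⌉₊ s := hgl _ s (hst.trans (hN t))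
    show dist (g ⌈s / δ⌉₊ s) (g ⌈t / δ⌉₊ t) ≤ _
    rw [e1]
    exact of_lip (gp _).1 hst
  obtain ⟨t, ht⟩ := hF2 _ hpath
  set gl : ℝ≥0 → M := fun s => g ⌈s / δ⌉₊ s with hgld
  obtain ⟨k, hk⟩ : ∃ k : ℕ, t + δ ≤ k * δ := ⟨_, hN (t + δ)⟩
  have e1 : F gl t = F (g k) (t + δ - δ) := by
    rw [add_tsub_cancel_right]
    refine hF.nolook _ _ hpath (gp k) t (fun s hs => hgl k s ?_) t le_rfl
    exact (hs.trans le_self_add).trans hk
  have e2 : gl (t + δ) = g (k + 1) (t + δ) :=
    hgl (k + 1) _ (hk.trans (by gcongr; omega))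
  have e3 := hG2 _ (hFd _ (gp k)) (t + δ)
  rw [← gs k, ← e2] at e3
  have e4 : dist (F gl t) (gl (t + δ)) ≤ dist (F gl t) (gl t) + dist (gl t) (gl (t + δ)) :=
    dist_triangle _ _ _
  have e5 := of_lip hpath.1 (s := t) (t := t + δ) le_self_add
  rw [e1] at e4
  have ht' : dist (F (g k) (t + δ - δ)) (gl t) < ε' := by rw [← e1]; exact ht
  have e3' : ε ≤ dist (F (g k) (t + δ - δ)) (gl (t + δ)) := e3
  push_cast at e5
  linarith

theorem keepsAway_mono {η η' : ℝ} (h : η' ≤ η) {x y : M} (hC : KeepsAway η x y) :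
    KeepsAway η' x y := by
  obtain ⟨G, hG, hG2⟩ := hC
  exact ⟨G, hG, fun l hl t => h.trans (hG2 l hl t)⟩

theorem christianWins_of {η : ℝ} (h : 0 < η) {x y : M} (hC : KeepsAway η x y) :
    ChristianWins x y := by
  obtain ⟨G, hG, hG2⟩ := hC
  refine ⟨G, hG, fun l hl t he => ?_⟩
  have := hG2 l hl t
  rw [he, dist_self] at this
  linarith

/-- Part (1): the game has a value; part (2): a local criterion for determinacy; part (3): what
is forced if neither player wins on a compact space. -/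
theorem result (M : Type*) [MetricSpace M] (x y : M) :
    (∃ v : ℝ, 0 ≤ v ∧ v ≤ dist x y ∧
      (∀ η, η < v → KeepsAway η x y) ∧ (∀ η, v < η → ¬ KeepsAway η x y) ∧
      (∀ ε, v < ε → Force x y (fun _ a b => dist a b < ε)) ∧
      (∀ ε, ε < v → ¬ Force x y (fun _ a b => dist a b < ε)) ∧
      (0 < v → ChristianWins x y ∧ ¬ LionWins x y) ∧
      (CompactSpace M → ∀ ε, v < ε →
        ∃ T : ℝ≥0, Force x y (fun t a b => t ≤ T ∧ dist a b < ε))) ∧
    ((∃ ε : ℝ, 0 < ε ∧ ∀ a b : M, dist a b < ε → LionWins a b) →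
      LionWins x y ∨ ChristianWins x y) ∧
    (CompactSpace M → ¬ LionWins x y → ¬ ChristianWins x y → ∀ ε : ℝ, 0 < ε →
      (∃ T : ℝ≥0, Force x y (fun t a b => t ≤ T ∧ dist a b < ε)) ∧
      ∃ a b : M, dist a b < ε ∧ ¬ LionWins a b) := by
  have hdich : ∀ ε η : ℝ, η < ε →
      Force x y (fun _ a b => dist a b < ε) ∨ KeepsAway η x y := by
    intro ε η h
    refine dichotomy h (fun a b => dist a b < ε) (fun a b => dist a b < ε) ?_
      (fun _ _ h => h) x y
    intro a b hab
    refine ⟨fun _ _ => a, ⟨fun _ _ => isPath_const a, fun _ _ _ _ _ _ _ _ => rfl⟩, fun c hc => ?_⟩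
    exact ⟨0, by rw [hc.2]; exact hab⟩
  have hloc : (∃ ε : ℝ, 0 < ε ∧ ∀ a b : M, dist a b < ε → LionWins a b) →
      LionWins x y ∨ ChristianWins x y := by
    rintro ⟨ε, hε, h⟩
    rcases dichotomy (show ε / 2 < ε by linarith) (fun a b => LionWins a b) (fun a b => a = b)
      (fun a b h => h) h x y with h1 | h1
    · exact Or.inl h1
    · exact Or.inr (christianWins_of (by linarith) h1)
  have hle : ∀ η, KeepsAway η x y → η ≤ dist x y := by
    rintro η ⟨G, hG, hG2⟩
    have h1 := hG2 _ (isPath_const x) 0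
    rw [(hG.path _ (isPath_const x)).2] at h1
    exact h1
  have h0 : KeepsAway 0 x y :=
    ⟨fun _ _ => y, ⟨fun _ _ => isPath_const y, fun _ _ _ _ _ _ _ _ => rfl⟩,
      fun _ _ _ => dist_nonneg⟩
  have hbdd : BddAbove {η : ℝ | KeepsAway η x y} := ⟨dist x y, fun η h => hle η h⟩
  refine ⟨?_, hloc, ?_⟩
  · refine ⟨sSup {η : ℝ | KeepsAway η x y}, le_csSup hbdd h0,
      csSup_le ⟨0, h0⟩ (fun η h => hle η h), ?_, ?_, ?_, ?_, ?_, ?_⟩
    · intro η h
      obtain ⟨η', h1, h2⟩ := exists_lt_of_lt_csSup ⟨0, h0⟩ h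
      exact keepsAway_mono h2.le h1
    · exact fun η h hk => absurd (le_csSup hbdd hk) (not_le.2 h)
    · intro ε h
      obtain ⟨η, h1, h2⟩ := exists_between h
      exact (hdich ε η h2).resolve_right fun hk => absurd (le_csSup hbdd hk) (not_le.2 h1)
    · intro ε h
      obtain ⟨η', h1, h2⟩ := exists_lt_of_lt_csSup ⟨0, h0⟩ h
      exact exclusive h2 h1
    · intro h
      obtain ⟨η', h1, h2⟩ := exists_lt_of_lt_csSup ⟨0, h0⟩ h
      refine ⟨christianWins_of h2 h1, ?_⟩
      rintro ⟨F, hF, hF2⟩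
      refine exclusive (show η' / 2 < η' by linarith) h1 ⟨F, hF, fun c hc => ?_⟩
      obtain ⟨t, ht⟩ := hF2 c hc
      refine ⟨t, ?_⟩
      show dist (F c t) (c t) < η' / 2
      rw [ht, dist_self]
      linarith
    · intro hcp ε h
      obtain ⟨η, h1, h2⟩ := exists_between h
      exact (dichotomy_compact h2 x y).resolve_right
        fun hk => absurd (le_csSup hbdd hk) (not_le.2 h1)
  · intro hcp hL hC ε hε
    refine ⟨(dichotomy_compact (show ε / 2 < ε by linarith) x y).resolve_right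
      fun hk => hC (christianWins_of (by linarith) hk), ?_⟩
    by_contra hno
    push Not at hno
    rcases hloc ⟨ε, hε, hno⟩ with h1 | h1
    · exact hL h1
    · exact hC h1

end Pool.Agent.Results.MP_fe87ae_co.PursuitValue
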